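import Pool.Agent.helper63.NU.Defs

set_option autoImplicit false

/-! Further definitions. -/

open MeasureTheory Filter Topology Set
open scoped ContDiff Manifold Matrix ENNReal ComplexOrder

noncomputable section

namespace Pool.Agent.helper63.NU

section
variable {n : ℕ}

/-- Taylor coefficient `∂^α f (p) / α!`, as an iterated Wirtinger derivative -/
def tc : (m : ℕ) → (Fin m → Fin n) → (E n → ℂ) → E n → ℂ
  | 0, _, f => f
  | m + 1, α, f => tc m (fun i => α i.succ) (dz (α 0) f)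

/-- `∑_{j,k} ∂̄_k a_j conj(∂̄_j b_k)` for `a = rs(∂̄f)`, `b = rs(∂̄g)` -/
def qf (ψ : E n → ℝ) (f g : E n → ℂ) (y : E n) : ℂ :=
  ∑ j, ∑ k, db k (fun z => rs (lev ψ z) (dbv f z) j) y *
    (starRingEnd ℂ) (db j (fun z => rs (lev ψ z) (dbv g z) k) y)

/-- `∑_j e^{w_j} |b_j|²` -/
def Sw {N : ℕ} (b : Fin N → E n → ℂ) (w : Fin N → ℝ) (z : E n) : ℝ :=
  ∑ j, Real.exp (w j) * ‖b j z‖ ^ 2

/-- mean of `a` for the weights `e^{w_j} |b_j|²` -/
def m1 {N : ℕ} (b : Fin N → E n → ℂ) (w a : Fin N → ℝ) (z : E n) : ℝ :=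
  (∑ j, a j * (Real.exp (w j) * ‖b j z‖ ^ 2)) / Sw b w z

end

section
variable {X : Type*} [MeasurableSpace X] {N : ℕ}

/-- `-log ∫ (∑_i e^{w_i} |(C S)_i|²)^{-θ} dμ` -/
def FF (μ : Measure X) (θ : ℝ) (S : X → Fin N → ℂ) (C : Matrix (Fin N) (Fin N) ℂ)
    (w : Fin N → ℝ) : ℝ :=
  -Real.log (∫ x, (∑ i, Real.exp (w i) * ‖(C.mulVec (S x)) i‖ ^ 2) ^ (-θ) ∂μ)

/-- `sup_{t > 0} (F(t λ) - F(0)) / t`, the slope at infinity of a convex function -/
def slope (F : (Fin N → ℝ) → ℝ) (lam : Fin N → ℝ) : ℝ :=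
  ⨆ t : Set.Ioi (0 : ℝ), (F ((t : ℝ) • lam) - F 0) / t

end

section
variable {n : ℕ} {M : Type*} [TopologicalSpace M]

/-- extension of a function with compact support in the chart `e` to a section of `-kK` -/
def ext (k : ℕ) (e : Ch n M) (u : E n → ℂ) : Fam n M ℂ := fun e' y => by
  classical exact
  if y ∈ e'.target ∧ e'.symm y ∈ e.source then jac e e' (e (e'.symm y)) ^ k * u (e (e'.symm y))
  else 0

/-- the curvature-free term of the Bochner formula, as a density -/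
def qd (ψ : Fam n M ℝ) (s t : Fam n M ℂ) : Fam n M ℂ := fun e y =>
  (∑ j, ∑ k, db k (fun z => rs (lev (ψ e) z) (dbv (s e) z) j) y *
    (starRingEnd ℂ) (db j (fun z => rs (lev (ψ e) z) (dbv (t e) z) k) y)) *
    (Real.exp (-ψ e y) : ℂ)

/-- the weight `kφ - log det ∂∂̄φ` on `-(k+1)K` -/
def psik (k : ℕ) (φ : Fam n M ℝ) : Fam n M ℝ := fun e y =>
  k * φ e y - Real.log (lev (φ e) y).det.re

variable [ChartedSpace (E n) M]

/-- the quotient of the densities `e^{-ψ}` and `e^{-φ}` of two weights on `-K` -/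
def rt (φ ψ : Fam n M ℝ) (x : M) : ℝ :=
  Real.exp (φ (chartAt (E n) x) (chartAt (E n) x x) - ψ (chartAt (E n) x) (chartAt (E n) x x))

/-- `|∂̄v|²` for the metric `∂∂̄ψ`, a function on `M` -/
def gr (ψ : Fam n M ℝ) (v : M → ℝ) (x : M) : ℝ :=
  (cn (lev (ψ (chartAt (E n) x)) (chartAt (E n) x x))
    (dbv (fun z => ((v ((chartAt (E n) x).symm z) : ℝ) : ℂ)) (chartAt (E n) x x))
    (dbv (fun z => ((v ((chartAt (E n) x).symm z) : ℝ) : ℂ)) (chartAt (E n) x x))).re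

/-- `tr_{∂∂̄φ} ∂∂̄u` -/
def lap (φ : Fam n M ℝ) (u : M → ℝ) (x : M) : ℝ :=
  (∑ j, ∑ k, (lev (φ (chartAt (E n) x)) (chartAt (E n) x x))⁻¹ k j *
    lev (fun z => u ((chartAt (E n) x).symm z)) (chartAt (E n) x x) j k).re

end

end Pool.Agent.helper63.NU
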