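import Pool.Agent.helper63.NU.Stmt3

set_option autoImplicit false

/-!
# MP_737c0a_gt: complex projective space with the Fubini–Study metric
-/

open MeasureTheory Filter Topology Set
open scoped ContDiff Manifold Matrix ENNReal ComplexOrder LinearAlgebra.Projectivization

noncomputable section

namespace Pool.Agent.helper63.NU

/-- complex projective space `ℂP^n`: the set of lines in `ℂ^{n+1}` -/
def CP (n : ℕ) : Type := ℙ ℂ (E (n + 1))

namespace CP

variable {n : ℕ}

/-- the line through `v ≠ 0` -/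
def mk (v : E (n + 1)) (hv : v ≠ 0) : CP n := Projectivization.mk ℂ v hv

/-- a nonzero vector on the line `x` (homogeneous coordinates of `x`) -/
def rep (x : CP n) : E (n + 1) := Projectivization.rep (K := ℂ) (V := E (n + 1)) x

theorem rep_ne (x : CP n) : x.rep ≠ 0 := Projectivization.rep_nonzero (K := ℂ) (V := E (n + 1)) x

theorem mk_rep (x : CP n) : mk x.rep x.rep_ne = x :=
  Projectivization.mk_rep (K := ℂ) (V := E (n + 1)) x

theorem mk_eq_iff (v w : E (n + 1)) (hv : v ≠ 0) (hw : w ≠ 0) :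
    mk v hv = mk w hw ↔ ∃ c : ℂ, c ≠ 0 ∧ c • w = v := by
  refine (Projectivization.mk_eq_mk_iff' ℂ v w hv hw).trans ?_
  constructor
  · rintro ⟨c, hc⟩
    exact ⟨c, by rintro rfl; exact hv (by rw [← hc]; simp), hc⟩
  · rintro ⟨c, _, hc⟩
    exact ⟨c, hc⟩

theorem exists_rep (v : E (n + 1)) (hv : v ≠ 0) : ∃ c : ℂ, c ≠ 0 ∧ (mk v hv).rep = c • v := by
  obtain ⟨c, hc, h⟩ := (mk_eq_iff _ _ (rep_ne (mk v hv)) hv).1 (mk_rep (mk v hv))
  exact ⟨c, hc, h.symm⟩

/-- the quotient topology of `ℂ^{n+1} \ {0}` -/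
instance : TopologicalSpace (CP n) :=
  inferInstanceAs (TopologicalSpace (Quotient (projectivizationSetoid ℂ (E (n + 1)))))

theorem isQuotientMap_mk :
    IsQuotientMap (fun v : {v : E (n + 1) // v ≠ 0} => (mk v.1 v.2 : CP n)) :=
  isQuotientMap_quot_mk

theorem continuous_mk : Continuous (fun v : {v : E (n + 1) // v ≠ 0} => (mk v.1 v.2 : CP n)) :=
  isQuotientMap_mk.continuous

theorem surjective_mk :
    Function.Surjective (fun v : {v : E (n + 1) // v ≠ 0} => (mk v.1 v.2 : CP n)) :=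
  fun x => ⟨⟨x.rep, x.rep_ne⟩, mk_rep x⟩

theorem ins_ne (i : Fin (n + 1)) (y : E n) : (i.insertNth 1 y : E (n + 1)) ≠ 0 := by
  intro h
  have := congrFun h i
  simp at this

/-- the affine chart `z_i ≠ 0`: `[z] ↦ (z_j / z_i)_{j ≠ i}` -/
def chart (i : Fin (n + 1)) : Ch n (CP n) where
  toFun x j := x.rep (i.succAbove j) / x.rep i
  invFun y := mk (i.insertNth 1 y) (ins_ne i y)
  source := {x | x.rep i ≠ 0}
  target := univ
  map_source' _ _ := mem_univ _
  map_target' y _ := by
    obtain ⟨c, hc, h⟩ := exists_rep (i.insertNth 1 y) (ins_ne i y)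
    simp [h, hc]
  left_inv' := by
    intro x hx
    conv_rhs => rw [← mk_rep x]
    rw [mk_eq_iff]
    refine ⟨(x.rep i)⁻¹, inv_ne_zero hx, ?_⟩
    funext j
    rcases eq_or_ne j i with rfl | hj
    · simp [inv_mul_cancel₀ hx]
    · obtain ⟨l, rfl⟩ := Fin.exists_succAbove_eq hj
      simp [div_eq_inv_mul]
  right_inv' y _ := by
    obtain ⟨c, hc, h⟩ := exists_rep (i.insertNth 1 y) (ins_ne i y)
    funext j
    simp only [h, Pi.smul_apply, smul_eq_mul, Fin.insertNth_apply_succAbove,
      Fin.insertNth_apply_same, mul_one]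
    field_simp
  open_source := by
    rw [← isQuotientMap_mk.isOpen_preimage]
    have : (fun v : {v : E (n + 1) // v ≠ 0} => (mk v.1 v.2 : CP n)) ⁻¹' {x | x.rep i ≠ 0}
        = {v | v.1 i ≠ 0} := by
      ext v
      obtain ⟨c, hc, h⟩ := exists_rep v.1 v.2
      simp [h, hc]
    rw [this]
    exact isOpen_ne_fun ((continuous_apply i).comp continuous_subtype_val) continuous_const
  open_target := isOpen_univ
  continuousOn_toFun := by
    have hop : IsOpen {x : CP n | x.rep i ≠ 0} := by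
      rw [← isQuotientMap_mk.isOpen_preimage]
      have : (fun v : {v : E (n + 1) // v ≠ 0} => (mk v.1 v.2 : CP n)) ⁻¹' {x | x.rep i ≠ 0}
          = {v | v.1 i ≠ 0} := by
        ext v
        obtain ⟨c, hc, h⟩ := exists_rep v.1 v.2
        simp [h, hc]
      rw [this]
      exact isOpen_ne_fun ((continuous_apply i).comp continuous_subtype_val) continuous_const
    rw [isQuotientMap_mk.continuousOn_isOpen_iff hop]
    have h1 : ContinuousOn (fun (v : {v : E (n + 1) // v ≠ 0}) (j : Fin n) =>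
        v.1 (i.succAbove j) / v.1 i) {v | v.1 i ≠ 0} := by
      refine continuousOn_pi.2 fun j => ContinuousOn.div
        ((continuous_apply (i.succAbove j)).comp continuous_subtype_val).continuousOn
        ((continuous_apply i).comp continuous_subtype_val).continuousOn fun v hv => hv
    refine (h1.congr ?_).mono ?_
    · intro v hv
      obtain ⟨c, hc, h⟩ := exists_rep v.1 v.2
      funext j
      simp only [Function.comp_apply, h, Pi.smul_apply, smul_eq_mul]
      have : v.1 i ≠ 0 := hv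
      field_simp
    · intro v hv
      obtain ⟨c, hc, h⟩ := exists_rep v.1 v.2
      simp only [mem_preimage, mem_setOf_eq, h, Pi.smul_apply, smul_eq_mul] at hv ⊢
      exact right_ne_zero_of_mul hv
  continuousOn_invFun := by
    refine Continuous.continuousOn ?_
    have : Continuous fun y : E n => (⟨i.insertNth 1 y, ins_ne i y⟩ : {v : E (n + 1) // v ≠ 0}) := by
      refine Continuous.subtype_mk ?_ _
      exact Continuous.finInsertNth i continuous_const continuous_id
    exact continuous_mk.comp this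

theorem exists_rep_ne (x : CP n) : ∃ i, x.rep i ≠ 0 := Function.ne_iff.1 x.rep_ne

/-- the atlas of the `n + 1` affine charts -/
instance : ChartedSpace (E n) (CP n) where
  atlas := range chart
  chartAt x := chart (Classical.choose (exists_rep_ne x))
  mem_chart_source x := Classical.choose_spec (exists_rep_ne x)
  chart_mem_atlas x := mem_range_self _

theorem mem_source_chart (i : Fin (n + 1)) (v : E (n + 1)) (hv : v ≠ 0) :
    mk v hv ∈ (chart i).source ↔ v i ≠ 0 := by
  obtain ⟨c, hc, h⟩ := exists_rep v hv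
  show (mk v hv).rep i ≠ 0 ↔ _
  simp [h, hc]

theorem chart_mk (i : Fin (n + 1)) (v : E (n + 1)) (hv : v ≠ 0) (hi : v i ≠ 0) (j : Fin n) :
    chart i (mk v hv) j = v (i.succAbove j) / v i := by
  obtain ⟨c, hc, h⟩ := exists_rep v hv
  show (mk v hv).rep (i.succAbove j) / (mk v hv).rep i = _
  simp only [h, Pi.smul_apply, smul_eq_mul]
  field_simp

theorem chart_symm (i : Fin (n + 1)) (y : E n) :
    (chart i).symm y = mk (i.insertNth 1 y) (ins_ne i y) := rfl

theorem chart_target (i : Fin (n + 1)) : (chart i : Ch n (CP n)).target = univ := rfl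

theorem chart_trans (i i' : Fin (n + 1)) (y : E n) (h : (i.insertNth 1 y : E (n + 1)) i' ≠ 0)
    (j : Fin n) : chart i' ((chart i).symm y) j
      = (i.insertNth 1 y : E (n + 1)) (i'.succAbove j) / (i.insertNth 1 y : E (n + 1)) i' := by
  rw [chart_symm, chart_mk i' _ _ h]

theorem contDiff_ins {𝕜 : Type*} [NontriviallyNormedField 𝕜] [NormedAlgebra 𝕜 ℂ] {m : WithTop ℕ∞}
    (i : Fin (n + 1)) : ContDiff 𝕜 m (fun y : E n => (i.insertNth 1 y : E (n + 1))) := by
  rw [contDiff_pi]
  intro j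
  rcases eq_or_ne j i with rfl | hj
  · simpa using contDiff_const
  · obtain ⟨l, rfl⟩ := Fin.exists_succAbove_eq hj
    simpa using contDiff_apply 𝕜 ℂ l

instance : IsManifold 𝓘(ℂ, E n) ω (CP n) := by
  refine isManifold_of_contDiffOn _ _ _ ?_
  rintro _ _ ⟨i, rfl⟩ ⟨i', rfl⟩
  have h1 : ContDiffOn ℂ ω (fun (y : E n) (j : Fin n) =>
      (i.insertNth 1 y : E (n + 1)) (i'.succAbove j) / (i.insertNth 1 y : E (n + 1)) i')
      {y | (i.insertNth 1 y : E (n + 1)) i' ≠ 0} := by
    rw [contDiffOn_pi]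
    intro j
    refine ContDiffOn.div ?_ ?_ fun y hy => hy
    · exact ((contDiff_pi.1 (contDiff_ins (𝕜 := ℂ) i)) _).contDiffOn
    · exact ((contDiff_pi.1 (contDiff_ins (𝕜 := ℂ) i)) _).contDiffOn
  refine (h1.congr ?_).mono ?_
  · intro y hy
    funext j
    exact chart_trans i i' y hy j
  · intro y hy
    simp only [mfld_simps] at hy
    exact (mem_source_chart i' _ _).1 hy.2

instance : T2Space (CP n) := by
  refine T2Space.of_injective_continuous
    (f := fun (x : CP n) (j k : Fin (n + 1)) =>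
      x.rep j * (starRingEnd ℂ) (x.rep k) / ((∑ l, ‖x.rep l‖ ^ 2 : ℝ) : ℂ)) ?_ ?_
  · intro x y hxy
    obtain ⟨k, hk⟩ := exists_rep_ne x
    have hx : ((∑ l, ‖x.rep l‖ ^ 2 : ℝ) : ℂ) ≠ 0 := by
      have : 0 < ∑ l, ‖x.rep l‖ ^ 2 :=
        Finset.sum_pos' (fun _ _ => by positivity) ⟨k, Finset.mem_univ _, by positivity⟩
      exact_mod_cast this.ne'
    have hy : ((∑ l, ‖y.rep l‖ ^ 2 : ℝ) : ℂ) ≠ 0 := by
      obtain ⟨k, hk⟩ := exists_rep_ne y
      have : 0 < ∑ l, ‖y.rep l‖ ^ 2 :=
        Finset.sum_pos' (fun _ _ => by positivity) ⟨k, Finset.mem_univ _, by positivity⟩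
      exact_mod_cast this.ne'
    have hck : (starRingEnd ℂ) (x.rep k) ≠ 0 := (map_ne_zero _).2 hk
    have key : ∀ j, x.rep j * (starRingEnd ℂ) (x.rep k) / ((∑ l, ‖x.rep l‖ ^ 2 : ℝ) : ℂ)
        = y.rep j * (starRingEnd ℂ) (y.rep k) / ((∑ l, ‖y.rep l‖ ^ 2 : ℝ) : ℂ) := fun j =>
      congrFun (congrFun hxy j) k
    have hyk : (starRingEnd ℂ) (y.rep k) ≠ 0 := by
      intro h
      have := key k
      rw [h, mul_zero, zero_div, div_eq_zero_iff, mul_eq_zero] at this
      tauto
    rw [← mk_rep x, ← mk_rep y, mk_eq_iff]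
    refine ⟨((∑ l, ‖x.rep l‖ ^ 2 : ℝ) : ℂ) * (starRingEnd ℂ) (y.rep k) /
      ((starRingEnd ℂ) (x.rep k) * ((∑ l, ‖y.rep l‖ ^ 2 : ℝ) : ℂ)), by positivity, ?_⟩
    funext j
    have := key j
    rw [div_eq_div_iff hx hy] at this
    rw [Pi.smul_apply, smul_eq_mul, div_mul_eq_mul_div, div_eq_iff (mul_ne_zero hck hy)]
    linear_combination -this
  · rw [isQuotientMap_mk.continuous_iff]
    have : Continuous fun (v : {v : E (n + 1) // v ≠ 0}) (j k : Fin (n + 1)) =>
        v.1 j * (starRingEnd ℂ) (v.1 k) / ((∑ l, ‖v.1 l‖ ^ 2 : ℝ) : ℂ) := by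
      refine continuous_pi fun j => continuous_pi fun k => Continuous.div ?_ ?_ ?_
      · exact ((continuous_apply j).comp continuous_subtype_val).mul
          (Complex.continuous_conj.comp ((continuous_apply k).comp continuous_subtype_val))
      · exact Complex.continuous_ofReal.comp (continuous_finsetSum _ fun l _ =>
          (((continuous_apply l).comp continuous_subtype_val).norm.pow 2))
      · intro v
        obtain ⟨k, hk⟩ := Function.ne_iff.1 v.2
        have hk' : v.1 k ≠ 0 := hk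
        have : 0 < ∑ l, ‖v.1 l‖ ^ 2 :=
          Finset.sum_pos' (fun _ _ => by positivity) ⟨k, Finset.mem_univ _, by positivity⟩
        exact_mod_cast this.ne'
    convert this using 1
    funext v j k
    obtain ⟨c, hc, h⟩ := exists_rep v.1 v.2
    simp only [Function.comp_apply, h, Pi.smul_apply, smul_eq_mul, map_mul, norm_mul, mul_pow,
      ← Finset.mul_sum]
    have h1 : (((‖c‖ ^ 2 * ∑ l, ‖v.1 l‖ ^ 2 : ℝ)) : ℂ)
        = (c * (starRingEnd ℂ) c) * ((∑ l, ‖v.1 l‖ ^ 2 : ℝ) : ℂ) := by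
      rw [Complex.mul_conj, Complex.normSq_eq_norm_sq]
      push_cast
      ring
    rw [h1]
    have h2 : c * (starRingEnd ℂ) c ≠ 0 := mul_ne_zero hc ((map_ne_zero _).2 hc)
    rw [show c * v.1 j * ((starRingEnd ℂ) c * (starRingEnd ℂ) (v.1 k))
      = (c * (starRingEnd ℂ) c) * (v.1 j * (starRingEnd ℂ) (v.1 k)) by ring,
      mul_div_mul_left _ _ h2]

theorem exists_chart_ball (x : CP n) : ∃ i, x ∈ (chart i).source ∧
    chart i x ∈ Metric.closedBall (0 : E n) 1 := by
  obtain ⟨i, -, hi⟩ := Finset.exists_max_image (Finset.univ : Finset (Fin (n + 1)))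
    (fun i => ‖x.rep i‖) ⟨0, Finset.mem_univ _⟩
  obtain ⟨k, hk⟩ := exists_rep_ne x
  have h0 : 0 < ‖x.rep i‖ := (norm_pos_iff.2 hk).trans_le (hi k (Finset.mem_univ _))
  refine ⟨i, norm_pos_iff.1 h0, ?_⟩
  rw [mem_closedBall_zero_iff, pi_norm_le_iff_of_nonneg zero_le_one]
  intro j
  show ‖x.rep (i.succAbove j) / x.rep i‖ ≤ 1
  rw [norm_div, div_le_one h0]
  exact hi _ (Finset.mem_univ _)

instance : CompactSpace (CP n) := by
  refine ⟨?_⟩
  have h : (univ : Set (CP n)) = ⋃ i, (chart i).symm '' Metric.closedBall (0 : E n) 1 := by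
    symm
    rw [eq_univ_iff_forall]
    intro x
    obtain ⟨i, hi, hx⟩ := exists_chart_ball x
    exact mem_iUnion.2 ⟨i, chart i x, hx, (chart i).left_inv hi⟩
  rw [h]
  refine isCompact_iUnion fun i => (isCompact_closedBall _ _).image_of_continuousOn ?_
  exact (chart i).continuousOn_invFun.mono (subset_univ _)

instance : ConnectedSpace (CP n) := by
  have h1 : IsConnected ({0}ᶜ : Set (E (n + 1))) := by
    refine isConnected_compl_singleton_of_one_lt_rank ?_ 0
    have : Module.rank ℝ (E (n + 1)) = ((2 * (n + 1) : ℕ) : Cardinal) := by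
      rw [← Module.finrank_eq_rank, Module.finrank_pi_fintype]
      simp [Complex.finrank_real_complex, mul_comm]
    rw [this]
    norm_cast
    omega
  have : ConnectedSpace {v : E (n + 1) // v ≠ 0} := isConnected_iff_connectedSpace.1 h1
  exact surjective_mk.connectedSpace continuous_mk

instance : MeasurableSpace (CP n) := borel _

instance : BorelSpace (CP n) := ⟨rfl⟩

end CP

/-- the Fubini–Study metric `∂∂̄ log(1 + |z|²)` (in all affine charts), with sectional curvatures
in `[1, 4]` -/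
def hFS (n : ℕ) : MFam n (CP n) := fun _ y => lev (fun z => Real.log (1 + ∑ j, ‖z j‖ ^ 2)) y

/-- the volume measure of the Fubini–Study metric -/
def dvFS (n : ℕ) : Measure (CP n) :=
  Measure.map (CP.chart 0).symm ((volume : Measure (E n)).withDensity fun y =>
    ENNReal.ofReal ((1 + ∑ j, ‖y j‖ ^ 2) ^ (-((n : ℝ) + 1))))

/-- the Fubini–Study weight on `-K` -/
def wFS (n : ℕ) : Fam n (CP n) ℝ := fun _ y => (n + 1) * Real.log (1 + ∑ j, ‖y j‖ ^ 2)

end Pool.Agent.helper63.NU
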