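import Pool.Agent.helper63.NU.Defs2

set_option autoImplicit false

/-!
# MP_737c0a_gt: definitions for the equality case
-/

open MeasureTheory Filter Topology Set
open scoped ContDiff Manifold Matrix ENNReal ComplexOrder

noncomputable section

namespace Pool.Agent.helper63.NU

/-- `f` vanishes at `p` to order at least `m` -/
def VanO {n : ℕ} (f : E n → ℂ) (p : E n) (m : ℕ) : Prop :=
  ∃ K : ℝ, ∀ᶠ y in 𝓝 p, ‖f y‖ ≤ K * ‖y - p‖ ^ m

/-- `f` is holomorphic near `p` -/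
def HolAt {n : ℕ} (f : E n → ℂ) (p : E n) : Prop := ∀ᶠ y in 𝓝 p, DifferentiableAt ℂ f y

section

variable (n : ℕ) (M : Type*) [TopologicalSpace M] [ChartedSpace (E n) M]

/-- the space of holomorphic sections of `-kK` (families equal to `0` where they are meaningless) -/
def H0 (k : ℕ) : Submodule ℂ (Fam n M ℂ) where
  carrier := {s | IsHol k s ∧ ∀ e y, ¬ (e ∈ atlas (E n) M ∧ y ∈ e.target) → s e y = 0}
  add_mem' := by
    rintro s t ⟨hs, hs'⟩ ⟨ht, ht'⟩
    refine ⟨⟨⟨fun e he => (hs.smooth e he).add (ht.smooth e he), fun e he e' he' x hx => ?_⟩,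
      fun e he => (hs.hol e he).add (ht.hol e he)⟩, fun e y h => ?_⟩
    · simp only [Pi.add_apply, hs.trans e he e' he' x hx, ht.trans e he e' he' x hx]; ring
    · simp only [Pi.add_apply, hs' e y h, ht' e y h, add_zero]
  zero_mem' := by
    refine ⟨⟨⟨fun e _ => contDiffOn_const, fun e _ e' _ x _ => ?_⟩,
      fun e _ => differentiableOn_const _⟩, fun e y _ => rfl⟩
    simp
  smul_mem' := by
    rintro c s ⟨hs, hs'⟩
    refine ⟨⟨⟨fun e he => contDiffOn_const.mul (hs.smooth e he), fun e he e' he' x hx => ?_⟩,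
      fun e he => (hs.hol e he).const_mul c⟩, fun e y h => ?_⟩
    · simp only [Pi.smul_apply, hs.trans e he e' he' x hx, smul_eq_mul]; ring
    · simp only [Pi.smul_apply, hs' e y h, smul_zero]

/-- The jets of order `d k`, `d = n + 1`, of the sections of `-kK` at every point determine the
section and are arbitrary. -/
def JetsIso : Prop := ∀ k : ℕ, 1 ≤ k → ∀ e ∈ atlas (E n) M, ∀ p ∈ e.target,
  (∀ s ∈ H0 n M k, VanO (s e) p ((n + 1) * k + 1) → s = 0) ∧
  (∀ P : E n → ℂ, HolAt P p → ∃ s ∈ H0 n M k, VanO (fun y => s e y - P y) p ((n + 1) * k + 1))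

end

section

variable {n : ℕ} {M : Type*} [TopologicalSpace M] [ChartedSpace (E n) M]

/-- the sections in `H0 k` which vanish at the point `p` of the chart `e` to order at least `m` -/
def VV (k : ℕ) (e : Ch n M) (p : E n) (m : ℕ) : Submodule ℂ (Fam n M ℂ) where
  carrier := {s | s ∈ H0 n M k ∧ VanO (s e) p m}
  add_mem' := by
    rintro s t ⟨hs, K, hK⟩ ⟨ht, K', hK'⟩
    refine ⟨add_mem hs ht, K + K', ?_⟩
    filter_upwards [hK, hK'] with y h1 h2
    calc ‖(s + t) e y‖ ≤ ‖s e y‖ + ‖t e y‖ := norm_add_le _ _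
      _ ≤ (K + K') * ‖y - p‖ ^ m := by rw [add_mul]; exact add_le_add h1 h2
  zero_mem' := ⟨zero_mem _, 0, Filter.Eventually.of_forall fun y => by simp⟩
  smul_mem' := by
    rintro c s ⟨hs, K, hK⟩
    refine ⟨Submodule.smul_mem _ c hs, ‖c‖ * K, ?_⟩
    filter_upwards [hK] with y h1
    calc ‖(c • s) e y‖ = ‖c‖ * ‖s e y‖ := by simp [norm_smul]
      _ ≤ ‖c‖ * K * ‖y - p‖ ^ m := by rw [mul_assoc]; gcongr

/-- `s` is an orthonormal basis of `H0 k` for the scalar product `∫ s conj t e^{-kφ} det ∂∂̄φ` -/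
def IsONB [MeasurableSpace M] (μ : Measure M) (φ : Fam n M ℝ) (k : ℕ) {N : ℕ}
    (s : Fin N → Fam n M ℂ) : Prop :=
  (∀ j, s j ∈ H0 n M k) ∧
  (∀ i j, ∫ x, hp k φ (s i) (s j) x * (dl φ x : ℂ) ∂μ = if i = j then 1 else 0) ∧
  H0 n M k ≤ Submodule.span ℂ (Set.range s)

/-- `|∂̄σ|²` for the metric `∂∂̄φ` on the manifold and `e^{-kφ}` on `-kK` -/
def eg (k : ℕ) (φ : Fam n M ℝ) (σ : Fam n M ℂ) (x : M) : ℝ :=
  (cn (lev (φ (chartAt (E n) x)) (chartAt (E n) x x)) (dbv (σ (chartAt (E n) x)) (chartAt (E n) x x))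
    (dbv (σ (chartAt (E n) x)) (chartAt (E n) x x))).re *
    Real.exp (-(k * φ (chartAt (E n) x) (chartAt (E n) x x)))

/-- `∏_i (∑_β |t_{iβ}|²)^{-a_i}` -/
def WT (φ : Fam n M ℝ) {r : ℕ} (L q : Fin r → ℕ) (t : (i : Fin r) → Fin (q i) → Fam n M ℂ)
    (a : Fin r → ℝ) (x : M) : ℝ≥0∞ :=
  ∏ i, (ENNReal.ofReal (∑ β, nrm (L i) φ (t i β) x)) ^ (-a i)

end

end Pool.Agent.helper63.NU
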