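import Pool.Agent.helper63.NU.Stub.A1
import Pool.Agent.helper63.NU.Stub.A2
import Pool.Agent.helper63.NU.Stub.A3
import Pool.Agent.helper63.NU.Stub.A9
import Pool.Agent.helper63.NU.Stub.A4
import Pool.Agent.helper63.NU.Stub.A5
import Pool.Agent.helper63.NU.Stub.A6
import Pool.Agent.helper63.NU.Stub.A7
import Pool.Agent.helper63.NU.Stub.A8
import Pool.Agent.helper63.NU.Stub.B1
import Pool.Agent.helper63.NU.Stub.B2
import Pool.Agent.helper63.NU.Stub.B2c
import Pool.Agent.helper63.NU.Stub.B3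
import Pool.Agent.helper63.NU.Stub.B4
import Pool.Agent.helper63.NU.Stub.B4b
import Pool.Agent.helper63.NU.Stub.B5
import Pool.Agent.helper63.NU.Stub.B5b
import Pool.Agent.helper63.NU.Stub.B6
import Pool.Agent.helper63.NU.Stub.B7a
import Pool.Agent.helper63.NU.Stub.B7b
import Pool.Agent.helper63.NU.Stub.C1
import Pool.Agent.helper63.NU.Stub.C2
import Pool.Agent.helper63.NU.Stub.C2b
import Pool.Agent.helper63.NU.Stub.C3
import Pool.Agent.helper63.NU.Stub.C4
import Pool.Agent.helper63.NU.Stub.C5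
import Pool.Agent.helper63.NU.Stub.D1
import Pool.Agent.helper63.NU.Stub.D2
import Pool.Agent.helper63.NU.Stub.D3a
import Pool.Agent.helper63.NU.Stub.D3b
import Pool.Agent.helper63.NU.Stub.D4
import Pool.Agent.helper63.NU.Stub.E1
import Pool.Agent.helper63.NU.Stub.E2
import Pool.Agent.helper63.NU.Stub.E3
import Pool.Agent.helper63.NU.Stub.F1
import Pool.Agent.helper63.NU.Stub.F2
import Pool.Agent.helper63.NU.Stub.G1
import Pool.Agent.helper63.NU.Stub.H1
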