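import Pool.Agent.helper63.NU.Stub.Q1
import Pool.Agent.helper63.NU.Stub.Q2
import Pool.Agent.helper63.NU.Stub.Q3
import Pool.Agent.helper63.NU.Stub.Q3b
import Pool.Agent.helper63.NU.Stub.Q4a
import Pool.Agent.helper63.NU.Stub.Q4b
import Pool.Agent.helper63.NU.Stub.Q5
import Pool.Agent.helper63.NU.Stub.Q6a
import Pool.Agent.helper63.NU.Stub.Q6b
import Pool.Agent.helper63.NU.Stub.Q6c
import Pool.Agent.helper63.NU.Stub.Q7
import Pool.Agent.helper63.NU.Stub.Q8
import Pool.Agent.helper63.NU.Stub.Q8b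
import Pool.Agent.helper63.NU.Stub.Q9
import Pool.Agent.helper63.NU.Stub.Q10
import Pool.Agent.helper63.NU.Stub.Q11
import Pool.Agent.helper63.NU.Stub.Q12
import Pool.Agent.helper63.NU.Stub.Q13
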