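import Mathlib

set_option autoImplicit false

/-!
# MP_737c0a_gt: definitions

`E n = ℂ^n`, Wirtinger derivatives, complex Hessians; complex manifolds `M` with charts in `E n`;
weights on the powers of the anticanonical bundle (families indexed by the charts), sections of the
powers of the anticanonical bundle, integration against a measure with a given density.
-/

open MeasureTheory Filter Topology Set
open scoped ContDiff Manifold Matrix ENNReal ComplexOrder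

noncomputable section

namespace Pool.Agent.helper63.NU

/-- `ℂ^n` -/
abbrev E (n : ℕ) : Type := Fin n → ℂ

section Local

variable {n : ℕ}

/-- `∂f/∂z_j` -/
def dz (j : Fin n) (f : E n → ℂ) (y : E n) : ℂ :=
  (fderiv ℝ f y (Pi.single j 1) - Complex.I * fderiv ℝ f y (Pi.single j Complex.I)) / 2

/-- `∂f/∂z̄_j` -/
def db (j : Fin n) (f : E n → ℂ) (y : E n) : ℂ :=
  (fderiv ℝ f y (Pi.single j 1) + Complex.I * fderiv ℝ f y (Pi.single j Complex.I)) / 2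

/-- The complex Hessian `(∂²ψ/∂z_j∂z̄_k)_{jk}` of a real function. -/
def lev (ψ : E n → ℝ) (y : E n) : Matrix (Fin n) (Fin n) ℂ :=
  Matrix.of fun j k => dz j (db k (fun z => ((ψ z : ℝ) : ℂ))) y

/-- For a positive Hermitian matrix `Θ` and a covector `α` of type `(0,1)`: the vector `a` with
`∑_j Θ_{jk} a_j = α_k`. -/
def rs (Θ : Matrix (Fin n) (Fin n) ℂ) (α : Fin n → ℂ) (j : Fin n) : ℂ := ∑ k, Θ⁻¹ k j * α k

/-- The Hermitian product of covectors of type `(0,1)`: `∑_{k,j} α_k Θ⁻¹_{kj} conj β_j`. -/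
def cn (Θ : Matrix (Fin n) (Fin n) ℂ) (α β : Fin n → ℂ) : ℂ :=
  ∑ k, ∑ j, α k * Θ⁻¹ k j * (starRingEnd ℂ) (β j)

/-- The covector `(∂f/∂z̄_j)_j`. -/
def dbv (f : E n → ℂ) (y : E n) (j : Fin n) : ℂ := db j f y

/-- `∂̄^* ∂̄ f` for the weight `e^{-ψ}` and the metric `lev ψ`:
`- e^ψ ∑_j ∂_j (e^{-ψ} ∑_k Θ⁻¹_{kj} ∂̄_k f)`. -/
def bx (ψ : E n → ℝ) (f : E n → ℂ) (y : E n) : ℂ :=
  -(Real.exp (ψ y) : ℂ) * ∑ j, dz j (fun z => (Real.exp (-ψ z) : ℂ) * rs (lev ψ z) (dbv f z) j) y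

end Local

section Global

/-- Charts. -/
abbrev Ch (n : ℕ) (M : Type*) [TopologicalSpace M] := OpenPartialHomeomorph M (E n)

/-- Families of functions in the charts. -/
abbrev Fam (n : ℕ) (M : Type*) [TopologicalSpace M] (𝕜 : Type) := Ch n M → E n → 𝕜

variable {n : ℕ} {M : Type*} [TopologicalSpace M]

/-- Complex Jacobian determinant of the change of charts `e' ∘ e⁻¹`. -/
def jac (e e' : Ch n M) (y : E n) : ℂ := (fderiv ℂ (fun z => e' (e.symm z)) y).det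

variable [ChartedSpace (E n) M]

/-- `ψ` is a smooth weight on `-kK_M` (the metric `e^{-ψ}`). A weight on `-K_M` is minus the
logarithm of a smooth positive density. -/
structure IsWeight (k : ℕ) (ψ : Fam n M ℝ) : Prop where
  smooth : ∀ e ∈ atlas (E n) M, ContDiffOn ℝ ∞ (ψ e) e.target
  trans : ∀ e ∈ atlas (E n) M, ∀ e' ∈ atlas (E n) M, ∀ x ∈ e.source ∩ e'.source,
    ψ e (e x) = ψ e' (e' x) - k * Real.log (‖jac e e' (e x)‖ ^ 2)

/-- `ψ` is a smooth weight on `-kK_M` with positive curvature. -/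
structure IsPos (k : ℕ) (ψ : Fam n M ℝ) : Prop extends IsWeight k ψ where
  pos : ∀ e ∈ atlas (E n) M, ∀ y ∈ e.target, (lev (ψ e) y).PosDef

/-- `s` is a smooth section of `-kK_M`. -/
structure IsSec (k : ℕ) (s : Fam n M ℂ) : Prop where
  smooth : ∀ e ∈ atlas (E n) M, ContDiffOn ℝ ∞ (s e) e.target
  trans : ∀ e ∈ atlas (E n) M, ∀ e' ∈ atlas (E n) M, ∀ x ∈ e.source ∩ e'.source,
    s e' (e' x) = jac e e' (e x) ^ k * s e (e x)

/-- `s` is a holomorphic section of `-kK_M`. -/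
structure IsHol (k : ℕ) (s : Fam n M ℂ) : Prop extends IsSec k s where
  hol : ∀ e ∈ atlas (E n) M, DifferentiableOn ℂ (s e) e.target

/-- `f` is a density: `f_e dLeb` is independent of the chart. -/
def IsDen (f : Fam n M ℂ) : Prop :=
  ∀ e ∈ atlas (E n) M, ∀ e' ∈ atlas (E n) M, ∀ x ∈ e.source ∩ e'.source,
    f e (e x) = ((‖jac e e' (e x)‖ ^ 2 : ℝ) : ℂ) * f e' (e' x)

/-- The measure `μ` has density `e^{-φ_e}` in the chart `e`. -/
def IsDens [MeasurableSpace M] (μ : Measure M) (φ : Fam n M ℝ) : Prop :=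
  ∀ e ∈ atlas (E n) M, ∀ f : M → ℝ≥0∞, Measurable f →
    ∫⁻ x in e.source, f x ∂μ
      = ∫⁻ y in e.target, f (e.symm y) * ENNReal.ofReal (Real.exp (-φ e y))

/-- The function on `M` obtained by dividing the density `f` by the density `e^{-φ}`. -/
def fn (φ : Fam n M ℝ) (f : Fam n M ℂ) (x : M) : ℂ :=
  f (chartAt (E n) x) (chartAt (E n) x x) * (Real.exp (φ (chartAt (E n) x) (chartAt (E n) x x)) : ℂ)

/-- `s conj t e^{-ψ}` -/
def pr (ψ : Fam n M ℝ) (s t : Fam n M ℂ) : Fam n M ℂ := fun e y =>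
  s e y * (starRingEnd ℂ) (t e y) * (Real.exp (-ψ e y) : ℂ)

/-- `⟨∂̄s, ∂̄t⟩ e^{-ψ}` for the metric `∂∂̄ψ` -/
def en (ψ : Fam n M ℝ) (s t : Fam n M ℂ) : Fam n M ℂ := fun e y =>
  cn (lev (ψ e) y) (dbv (s e) y) (dbv (t e) y) * (Real.exp (-ψ e y) : ℂ)

/-- `∂̄^* ∂̄ s` -/
def box (ψ : Fam n M ℝ) (s : Fam n M ℂ) : Fam n M ℂ := fun e y => bx (ψ e) (s e) y

/-- `∫_M s conj t e^{-ψ}` -/
def ip [MeasurableSpace M] (μ : Measure M) (φ ψ : Fam n M ℝ) (s t : Fam n M ℂ) : ℂ :=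
  ∫ x, fn φ (pr ψ s t) x ∂μ

/-- `∫_M ⟨∂̄s, ∂̄t⟩ e^{-ψ}` -/
def dp [MeasurableSpace M] (μ : Measure M) (φ ψ : Fam n M ℝ) (s t : Fam n M ℂ) : ℂ :=
  ∫ x, fn φ (en ψ s t) x ∂μ

/-- `det(∂∂̄φ) e^φ`, a function on `M` -/
def dl (φ : Fam n M ℝ) (x : M) : ℝ :=
  (lev (φ (chartAt (E n) x)) (chartAt (E n) x x)).det.re *
    Real.exp (φ (chartAt (E n) x) (chartAt (E n) x x))

/-- `s conj t e^{-kφ}`, a function on `M` -/
def hp (k : ℕ) (φ : Fam n M ℝ) (s t : Fam n M ℂ) (x : M) : ℂ :=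
  s (chartAt (E n) x) (chartAt (E n) x x) *
    (starRingEnd ℂ) (t (chartAt (E n) x) (chartAt (E n) x x)) *
    (Real.exp (-(k * φ (chartAt (E n) x) (chartAt (E n) x x))) : ℂ)

/-- `|s|² e^{-kφ}`, a function on `M` -/
def nrm (k : ℕ) (φ : Fam n M ℝ) (s : Fam n M ℂ) (x : M) : ℝ :=
  ‖s (chartAt (E n) x) (chartAt (E n) x x)‖ ^ 2 *
    Real.exp (-(k * φ (chartAt (E n) x) (chartAt (E n) x x)))

/-- smooth complex functions on `M` -/
def Sm (n : ℕ) {M : Type*} [TopologicalSpace M] [ChartedSpace (E n) M] (f : M → ℂ) : Prop :=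
  ∀ e ∈ atlas (E n) M, ContDiffOn ℝ ∞ (fun y => f (e.symm y)) e.target

end Global

end Pool.Agent.helper63.NU
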