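import Pool.Agent.helper63.NU.Defs3
import Pool.Agent.helper63.NU.CPDefs

set_option autoImplicit false

/-!
# MP_737c0a_gt: definitions for the rigidity part
-/

open MeasureTheory Filter Topology Set
open scoped ContDiff Manifold Matrix ENNReal ComplexOrder

noncomputable section

namespace Pool.Agent.helper63.NU

section

variable {n : ℕ} {M : Type*} [TopologicalSpace M] [ChartedSpace (E n) M]

/-- The sections `z_α`, `|α| = n + 1`, of `-K` (monomials in projective coordinates). -/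
structure IsZ (z : (Fin (n + 1) → ℕ) → Fam n M ℂ) : Prop where
  mem : ∀ α, ∑ i, α i = n + 1 → z α ∈ H0 n M 1
  rel : ∀ α β α' β', ∑ i, α i = n + 1 → ∑ i, β i = n + 1 → ∑ i, α' i = n + 1 → ∑ i, β' i = n + 1 →
    α + β = α' + β' → z α * z β = z α' * z β'
  base : ∀ e ∈ atlas (E n) M, ∀ y ∈ e.target, ∃ i : Fin (n + 1),
    z ((n + 1) • Pi.single i 1) e y ≠ 0
  gen : ∀ k : ℕ, 1 ≤ k → H0 n M k ≤ Submodule.span ℂ
    {s | ∃ α : Fin k → Fin (n + 1) → ℕ, (∀ l, ∑ i, α l i = n + 1) ∧ s = ∏ l, z (α l)}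
  imm : ∀ e ∈ atlas (E n) M, ∀ y ∈ e.target, ∀ i : Fin (n + 1),
    z ((n + 1) • Pi.single i 1) e y ≠ 0 → ∀ v : E n,
    (∀ j : Fin (n + 1), fderiv ℂ (fun y' => z (n • Pi.single i 1 + Pi.single j 1) e y' /
      z ((n + 1) • Pi.single i 1) e y') y v = 0) → v = 0

end

section

variable {n : ℕ}

/-- `(z_0, …, z_n)` with `z_i = 1` and the other coordinates equal to `y` -/
def ins (i : Fin (n + 1)) (y : E n) : E (n + 1) := i.insertNth 1 y

/-- the projective transformation of the matrix `A` in the affine charts `i`, `i'` -/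
def pmap (A : Matrix (Fin (n + 1)) (Fin (n + 1)) ℂ) (i i' : Fin (n + 1)) (y : E n) : E n :=
  fun j => (A.mulVec (ins i y)) (i'.succAbove j) / (A.mulVec (ins i y)) i'

/-- the holomorphic vector field on `ℂP^n` of the matrix `B` in the affine chart `i` -/
def xi (B : Matrix (Fin (n + 1)) (Fin (n + 1)) ℂ) (i : Fin (n + 1)) (y : E n) : E n :=
  fun j => (B.mulVec (ins i y)) (i.succAbove j) - y j * (B.mulVec (ins i y)) i

/-- the linear form with coefficients `c` in the affine chart `i` -/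
def lf (c : E (n + 1)) (i : Fin (n + 1)) (y : E n) : ℂ := ∑ a, c a * ins i y a

/-- an index `i` with `x_i ≠ 0` -/
def idx (x : CP n) : Fin (n + 1) := Classical.choose (CP.exists_rep_ne x)

/-- `l conj l' e^{-ψ/(n+1)}` for the linear forms `l`, `l'` with coefficients `c`, `c'`, a function
on `ℂP^n` -/
def Fc (ψ : Fam n (CP n) ℝ) (c c' : E (n + 1)) (x : CP n) : ℂ :=
  lf c (idx x) (CP.chart (idx x) x) * (starRingEnd ℂ) (lf c' (idx x) (CP.chart (idx x) x)) *
    (Real.exp (-(ψ (CP.chart (idx x)) (CP.chart (idx x) x) / (n + 1))) : ℂ)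

end

section

variable {n : ℕ} {M M' : Type*} [TopologicalSpace M] [ChartedSpace (E n) M]
  [TopologicalSpace M'] [ChartedSpace (E n) M']

/-- pull-back of a weight on `-K` by a (local bi-)holomorphic map -/
def pull (Φ : M' → M) (φ : Fam n M ℝ) : Fam n M' ℝ := fun e' y =>
  φ (chartAt (E n) (Φ (e'.symm y))) (chartAt (E n) (Φ (e'.symm y)) (Φ (e'.symm y)))
    - Real.log (‖(fderiv ℂ (fun z => chartAt (E n) (Φ (e'.symm y)) (Φ (e'.symm z))) y).det‖ ^ 2)

end

end Pool.Agent.helper63.NU
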