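import Pool.Agent.helper18.NU.E1
import Pool.Agent.helper5.NU.E2
import Pool.Agent.helper18.NU.E3

set_option autoImplicit false

/-! Abstract finite-level inequality. -/

open MeasureTheory Filter Topology Set
open scoped ContDiff Manifold Matrix ENNReal ComplexOrder

noncomputable section

namespace Pool.Agent.helper63.NU

variable {X : Type*} [MeasurableSpace X] {N : ℕ}

theorem FF_abs {μ : Measure X} [IsProbabilityMeasure μ] {S : X → Fin N → ℂ} {θ m m' : ℝ}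
    (hS : ∀ c : Fin N → ℂ, Measurable fun x => ‖∑ j, c j * S x j‖) (hm : 0 < m)
    (hS1 : ∀ x, m ≤ ∑ j, ‖S x j‖ ^ 2) (hS2 : ∀ x, ∑ j, ‖S x j‖ ^ 2 ≤ m') (hθ : 0 < θ)
    {C : Matrix (Fin N) (Fin N) ℂ} (hC : IsUnit C.det) (w : Fin N → ℝ) :
    |FF μ θ S C w - FF μ θ S C 0| ≤ θ * ‖w‖ := by
  have h1 : FF μ θ S C w ≤ FF μ θ S C 0 + θ * ‖w‖ := by
    refine FF_lip hS hm hS1 hS2 hθ hC fun i => ?_
    have := norm_le_pi_norm w i
    rw [Real.norm_eq_abs] at this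
    simpa using (le_abs_self _).trans this
  have h2 : FF μ θ S C 0 ≤ FF μ θ S C w + θ * ‖w‖ := by
    refine FF_lip hS hm hS1 hS2 hθ hC fun i => ?_
    have := norm_le_pi_norm w i
    rw [Real.norm_eq_abs] at this
    have h3 := (neg_le_abs (w i)).trans this
    simp only [Pi.zero_apply]
    linarith
  rw [abs_le]; constructor <;> linarith

theorem E_main {μ : Measure X} [IsProbabilityMeasure μ] {n : ℕ} (hn : 0 < n) (hN : 0 < N)
    {S : X → Fin N → ℂ} {D : X → ℝ} {θ m m' d d' : ℝ}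
    (hS : ∀ c : Fin N → ℂ, Measurable fun x => ‖∑ j, c j * S x j‖) (hm : 0 < m)
    (hS1 : ∀ x, m ≤ ∑ j, ‖S x j‖ ^ 2) (hS2 : ∀ x, ∑ j, ‖S x j‖ ^ 2 ≤ m') (hθ : 0 < θ)
    (hD : Measurable D) (hd : 0 < d) (hD1 : ∀ x, d ≤ D x) (hD2 : ∀ x, D x ≤ d')
    (horth : ∀ i j, ∫ x, S x i * (starRingEnd ℂ) (S x j) * (D x : ℂ) ∂μ = if i = j then 1 else 0)
    (hcv : ∀ C : Matrix (Fin N) (Fin N) ℂ, IsUnit C.det → ConvexOn ℝ univ (FF μ θ S C))
    (hjet : ∀ C : Matrix (Fin N) (Fin N) ℂ, IsUnit C.det → ∀ lam : Fin N → ℝ,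
      ∃ (C' : Matrix (Fin N) (Fin N) ℂ)
      (σ : Equiv.Perm (Fin N)) (α : Fin N → Fin n → ℕ), IsUnit C'.det ∧ Function.Injective α ∧
      (∀ i β, β ≤ α i → ∃ j, α j = β) ∧ (∀ i j, C' i j ≠ 0 → lam (σ i) ≤ lam j) ∧
      (∀ i j, α i ≤ α j → lam (σ j) ≤ lam (σ i)) ∧
      ∃ K : ℝ, ∀ t ≥ (0 : ℝ), FF μ θ S (C' * C) (fun i => t * (∑ a, α i a : ℕ)) ≤ n * t + K) :
    (∫ x, Real.log (D x * (∑ j, ‖S x j‖ ^ 2) ^ θ * (∫ x, (∑ j, ‖S x j‖ ^ 2) ^ (-θ) ∂μ)) *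
        ((∑ j, ‖S x j‖ ^ 2) ^ (-θ) / (∫ x, (∑ j, ‖S x j‖ ^ 2) ^ (-θ) ∂μ)) ∂μ) + Real.log m
      ≤ n * Real.log ((n + 1) * (1 / θ + 1)) - Real.log (n.factorial) := by
  have key : ∀ C : Matrix (Fin N) (Fin N) ℂ, IsUnit C.det → _ := fun C hC =>
    slope_convex (hcv C hC) (L := θ) (FF_abs (μ := μ) hS hm hS1 hS2 hθ hC)
  refine optimize hn hN hθ (fun C => slope (FF μ θ S C)) (fun C hC => (key C hC).2.2.1)
    (fun C hC => (key C hC).2.2.2.1) (fun C C' hC hC' lam lam' h => ?_) (fun C hC lam => ?_)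
    (fun C hC lam => ?_)
  · have hCC : IsUnit (C' * C).det := by rw [Matrix.det_mul]; exact hC'.mul hC
    exact slope_flag hS hm hS1 hS2 hθ hC hC' (hcv C hC) (hcv _ hCC) h
  · exact dv hN hS hm hS1 hS2 hθ hD hd hD1 hD2 horth hcv hC lam
  · obtain ⟨C', σ, α, hC', h1, h2, h3, h4, K, hK⟩ := hjet C hC lam
    have hCC : IsUnit (C' * C).det := by rw [Matrix.det_mul]; exact hC'.mul hC
    refine ⟨C', σ, α, hC', h1, h2, h3, h4, ?_⟩
    refine (key _ hCC).2.2.2.2.2 _ n K fun t ht => ?_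
    have := hK t ht
    simpa [Pi.smul_def, smul_eq_mul] using this

end Pool.Agent.helper63.NU
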