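import Pool.Agent.helper63.NU.Defs

set_option autoImplicit false

/-!
# MP_737c0a_gt: definitions for the statement

Kähler metrics, their volume measures, scalar curvature, the class `λ · 2π c₁`, Perelman's `W`.

Conventions: a Kähler metric is given by positive Hermitian matrices `h_e = (h_{jk̄})` in the charts,
`g(v, w) = Re ∑ h_{jk̄} v_j conj w_k`; its volume measure is `det h_e dLeb`, its Kähler form is
`(i/2) ∑ h_{jk̄} dz_j ∧ dz̄_k`.
-/

open MeasureTheory Filter Topology Set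
open scoped ContDiff Manifold Matrix ENNReal ComplexOrder

noncomputable section

namespace Pool.Agent.helper63.NU

variable {n : ℕ} {M : Type*} [TopologicalSpace M] [ChartedSpace (E n) M]

/-- Matrices `h_e(y)` in all charts. -/
abbrev MFam (n : ℕ) (M : Type*) [TopologicalSpace M] : Type _ :=
  Ch n M → E n → Matrix (Fin n) (Fin n) ℂ

/-- `h` is a (smooth) Kähler metric on `M`. -/
structure IsKahler (h : MFam n M) : Prop where
  smooth : ∀ e ∈ atlas (E n) M, ∀ j k, ContDiffOn ℝ ∞ (fun y => h e y j k) e.target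
  pos : ∀ e ∈ atlas (E n) M, ∀ y ∈ e.target, (h e y).PosDef
  /-- the Hermitian form does not depend on the chart -/
  trans : ∀ e ∈ atlas (E n) M, ∀ e' ∈ atlas (E n) M, ∀ x ∈ e.source ∩ e'.source, ∀ v w : E n,
    ∑ j, ∑ k, h e (e x) j k * v j * (starRingEnd ℂ) (w k)
      = ∑ j, ∑ k, h e' (e' x) j k * (fderiv ℂ (fun z => e' (e.symm z)) (e x) v) j *
        (starRingEnd ℂ) ((fderiv ℂ (fun z => e' (e.symm z)) (e x) w) k)
  /-- the Kähler form is closed: `∂_l h_{jk̄} = ∂_j h_{lk̄}` -/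
  closed : ∀ e ∈ atlas (E n) M, ∀ y ∈ e.target, ∀ j k l,
    dz l (fun z => h e z j k) y = dz j (fun z => h e z l k) y

/-- The Kähler form `ω` of `h` is in `lam · 2π c₁(M)`: `ω / lam` is the curvature form
`i∂∂̄φ` of a Hermitian metric `e^{-φ}` on `-K_M`. (`ω = (i/2) ∑ h_{jk̄} dz_j ∧ dz̄_k`) -/
def InClass (lam : ℝ) (h : MFam n M) : Prop :=
  ∃ φ : Fam n M ℝ, IsWeight 1 φ ∧ ∀ e ∈ atlas (E n) M, ∀ y ∈ e.target,
    h e y = ((2 * lam : ℝ) : ℂ) • lev (φ e) y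

/-- `dv` is the volume measure of `h`. -/
def IsVol [MeasurableSpace M] (h : MFam n M) (dv : Measure M) : Prop :=
  ∀ e ∈ atlas (E n) M, ∀ f : M → ℝ≥0∞, Measurable f →
    ∫⁻ x in e.source, f x ∂dv = ∫⁻ y in e.target, f (e.symm y) * ENNReal.ofReal (h e y).det.re

/-- the scalar curvature `-4 h^{jk̄} ∂_j ∂̄_k log det h` -/
def scal (h : MFam n M) (x : M) : ℝ :=
  -4 * (∑ j, ∑ k, (h (chartAt (E n) x) (chartAt (E n) x x))⁻¹ k j *
    lev (fun z => Real.log (h (chartAt (E n) x) z).det.re) (chartAt (E n) x x) j k).re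

/-- `|∇f|² = 4 h^{jk̄} ∂_j f ∂̄_k f` -/
def grad2 (h : MFam n M) (f : M → ℝ) (x : M) : ℝ :=
  4 * (∑ j, ∑ k, (h (chartAt (E n) x) (chartAt (E n) x x))⁻¹ k j *
    dz j (fun z => ((f ((chartAt (E n) x).symm z) : ℝ) : ℂ)) (chartAt (E n) x x) *
    db k (fun z => ((f ((chartAt (E n) x).symm z) : ℝ) : ℂ)) (chartAt (E n) x x)).re

/-- Perelman's functional in the normalisation of the problem, `m = 2n`:
`W(g,f,τ) = -m - (m/2) log(4πτ) + ∫ (τ (R f² + 4|∇f|²) - 2 f² log f) dv`. -/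
def W [MeasurableSpace M] (h : MFam n M) (dv : Measure M) (f : M → ℝ) (τ : ℝ) : ℝ :=
  -(2 * n : ℝ) - n * Real.log (4 * Real.pi * τ) +
    ∫ x, (τ * (scal h x * f x ^ 2 + 4 * grad2 h f x) - 2 * f x ^ 2 * Real.log (f x)) ∂dv

/-- Stage 1: `ν(M,g) ≤ log((n+1)^n/n!) - n` for every Fano manifold. -/
def Stage1 : Prop :=
  ∀ (n : ℕ) (M : Type) [TopologicalSpace M] [ChartedSpace (E n) M] [IsManifold 𝓘(ℂ, E n) ω M]
    [CompactSpace M] [T2Space M] [ConnectedSpace M] [MeasurableSpace M] [BorelSpace M]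
    (h : MFam n M) (lam : ℝ) (dv : Measure M), 0 < n → 0 < lam → IsKahler h → InClass lam h →
    IsVol h dv →
    ∃ (f : M → ℝ) (τ : ℝ), 0 < τ ∧ Sm n (fun x => ((f x : ℝ) : ℂ)) ∧ (∀ x, 0 < f x) ∧
      ∫ x, f x ^ 2 ∂dv = 1 ∧
      W h dv f τ ≤ n * Real.log (n + 1) - Real.log n.factorial - n

end Pool.Agent.helper63.NU
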