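import Pool.Agent.helper63.NU.T
import Pool.Agent.helper80.NU.H2

set_option autoImplicit false

/-! Stage 1: `ν(M,g) ≤ log((n+1)^n/n!) - n` for every Fano manifold. -/

open MeasureTheory Filter Topology Set
open scoped ContDiff Manifold Matrix ENNReal ComplexOrder

noncomputable section

namespace Pool.Agent.helper63.NU

theorem stage1 : Stage1 := by
  intro n M _ _ _ _ _ _ _ _ h lam dv hn hlam hK hcl hv
  obtain ⟨φ, hφ, hh⟩ := hcl
  haveI : Nonempty M := ConnectedSpace.toNonempty
  have hpos : IsPos 1 φ := by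
    refine ⟨hφ, fun e he y hy => ?_⟩
    have h1 := hK.pos e he y hy
    have h2 : lev (φ e) y = (((2 * lam)⁻¹ : ℝ) : ℂ) • h e y := by
      rw [hh e he y hy, smul_smul, ← Complex.ofReal_mul, inv_mul_cancel₀ (by positivity)]
      simp
    rw [h2]
    have h3 : (0 : ℝ) < (2 * lam)⁻¹ := by positivity
    exact h1.smul (by exact_mod_cast h3)
  obtain ⟨φ', μ, f, h1, h2, h3, h4, h5, h6, h7⟩ := W_comp hpos hlam hh hv
  refine ⟨f, lam / 2, by positivity, h4, h5, h6, ?_⟩
  have h8 := main_T (μ := μ) hn h1 h2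
  rw [h7]
  have hπ := Real.pi_pos
  rw [Real.log_mul hπ.ne' (by positivity)] at h8
  linarith

end Pool.Agent.helper63.NU
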