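import Pool.Agent.helper80.NU.H2

set_option autoImplicit false
set_option linter.all false

/-! `W_comp` of module H2 (helper80) with the information that the weight is only changed by a
constant. -/

open MeasureTheory Filter Topology Set
open scoped ContDiff Manifold Matrix ENNReal ComplexOrder

noncomputable section

namespace Pool.Agent.helper63.NU

variable {n : ℕ} {M : Type*} [TopologicalSpace M] [ChartedSpace (E n) M]
  [IsManifold 𝓘(ℂ, E n) ω M]

open B4aux H2aux

variable [CompactSpace M] [T2Space M] [Nonempty M] [MeasurableSpace M] [BorelSpace M]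

theorem W_comp2 {φ : Fam n M ℝ} (hφ : IsPos 1 φ) {lam : ℝ} (hlam : 0 < lam) {h : MFam n M}
    (hh : ∀ e ∈ atlas (E n) M, ∀ y ∈ e.target, h e y = ((2 * lam : ℝ) : ℂ) • lev (φ e) y)
    {dv : Measure M} (hv : IsVol h dv) :
    ∃ (φ' : Fam n M ℝ) (μ : Measure M) (f : M → ℝ), (∀ e ∈ atlas (E n) M, ∀ y ∈ e.target,
      lev (φ' e) y = lev (φ e) y) ∧ IsPos 1 φ' ∧ IsDens μ φ' ∧
      IsProbabilityMeasure μ ∧ Sm n (fun x => ((f x : ℝ) : ℂ)) ∧ (∀ x, 0 < f x) ∧
      ∫ x, f x ^ 2 ∂dv = 1 ∧
      W h dv f (lam / 2) = -n - n * Real.log Real.pi + ∫ x, Real.log (dl φ' x) ∂μ := by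
  have hκ := kap_weight hφ hlam hh
  have hd := kap_dens hφ hlam hh hv
  haveI hfin : IsFiniteMeasure dv := isFiniteMeasure_of_isDens hκ hd
  haveI hop : dv.IsOpenPosMeasure := isOpenPosMeasure_of_isDens hκ hd
  have hint : ∀ g : M → ℝ, Continuous g → Integrable g dv := fun g hg =>
    hg.integrable_of_hasCompactSupport (HasCompactSupport.of_compactSpace g)
  set Z : ℝ := ∫ x, vv φ x ∂dv with hZdef
  have hZ : 0 < Z := by
    have hnn : 0 ≤ vv φ := fun x => (Real.exp_pos _).le
    rw [hZdef, integral_pos_iff_support_of_nonneg hnn (hint _ (continuous_vv hφ))]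
    have : Function.support (vv φ) = univ := by
      ext x
      simp only [Function.mem_support, mem_univ, iff_true]
      exact (Real.exp_pos _).ne'
    rw [this]
    exact Measure.measure_univ_pos.2 (NeZero.ne dv)
  have hff2 : Continuous fun x => ff φ Z x ^ 2 := (continuous_ff hφ Z).pow 2
  have hone : ∫ x, ff φ Z x ^ 2 ∂dv = 1 := by
    simp only [ff_sq φ hZ]
    rw [integral_const_mul]
    show Z⁻¹ * (∫ x, vv φ x ∂dv) = 1
    rw [← hZdef, inv_mul_cancel₀ hZ.ne']
  have hm : Measurable fun x => ENNReal.ofReal (ff φ Z x ^ 2) :=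
    ENNReal.measurable_ofReal.comp hff2.measurable
  set μ : Measure M := dv.withDensity fun x => ENNReal.ofReal (ff φ Z x ^ 2) with hμdef
  set a : ℝ := Real.log (Z / (2 * lam) ^ n) with ha
  have hμint : ∀ g : M → ℝ, ∫ x, g x ∂μ = ∫ x, ff φ Z x ^ 2 * g x ∂dv := by
    intro g
    rw [hμdef, integral_withDensity_eq_integral_toReal_smul hm
      (Filter.Eventually.of_forall fun x => ENNReal.ofReal_lt_top)]
    refine integral_congr_ae (Filter.Eventually.of_forall fun x => ?_)
    simp only [smul_eq_mul]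
    rw [ENNReal.toReal_ofReal (by positivity)]
  have hprob : IsProbabilityMeasure μ := by
    constructor
    rw [hμdef, withDensity_apply _ MeasurableSet.univ, Measure.restrict_univ,
      ← ofReal_integral_eq_lintegral_ofReal (hint _ hff2)
        (Filter.Eventually.of_forall fun x => by positivity), hone, ENNReal.ofReal_one]
  have hdens := dens_mu hφ hlam hh hv hZ
  have hpos := isPos_addc hφ a
  refine ⟨fun e y => φ e y + a, μ, ff φ Z, fun e he y hy => lev_addc hφ a he hy, hpos, hdens,
    hprob, ?_, fun x => Real.exp_pos _,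
    hone, ?_⟩
  · exact sm_of_real (g := fun t => Real.exp (-(Real.log Z + t) / 2)) (by fun_prop) hφ
  have hvs : Sm n (fun x => ((vv φ x : ℝ) : ℂ)) :=
    sm_of_real (g := fun t => Real.exp (-t)) (by fun_prop) hφ
  have hlap0 : ∫ x, lap φ (vv φ) x ∂dv = 0 := by
    have h1 := integral_lap hpos hdens hvs
    rw [hμint] at h1
    have h2 : ∀ x, ff φ Z x ^ 2 * (lap (fun e y => φ e y + a : Fam n M ℝ) (vv φ) x *
        dl (fun e y => φ e y + a : Fam n M ℝ) x) = (Z⁻¹ * Real.exp a) * lap φ (vv φ) x := by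
      intro x
      rw [lap_addc hφ, dl_addc hφ, ff_sq φ hZ]
      have h3 : Real.exp (-uu φ x) * dl φ x = 1 := by
        rw [uu, Real.exp_neg, Real.exp_log (dl_pos hφ x), inv_mul_cancel₀ (dl_pos hφ x).ne']
      linear_combination (Z⁻¹ * Real.exp a * lap φ (vv φ) x) * h3
    simp only [h2] at h1
    rw [integral_const_mul] at h1
    rcases mul_eq_zero.1 h1 with h4 | h4
    · exact absurd h4 (by positivity)
    · exact h4
  have hc1 : Continuous fun x => Z⁻¹ * lap φ (vv φ) x :=
    continuous_const.mul (continuous_lap hφ hvs)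
  have hc2 : Continuous fun x => ff φ Z x ^ 2 * ((n : ℝ) + Real.log Z + uu φ x) :=
    hff2.mul (continuous_const.add (continuous_uu hφ))
  have hI : ∫ x, ((lam / 2) * (scal h x * ff φ Z x ^ 2 + 4 * grad2 h (ff φ Z) x) -
      2 * ff φ Z x ^ 2 * Real.log (ff φ Z x)) ∂dv = (n : ℝ) + Real.log Z + ∫ x, uu φ x ∂μ := by
    have h1 : ∀ x, (lam / 2) * (scal h x * ff φ Z x ^ 2 + 4 * grad2 h (ff φ Z) x) -
      2 * ff φ Z x ^ 2 * Real.log (ff φ Z x) =
      Z⁻¹ * lap φ (vv φ) x + ff φ Z x ^ 2 * ((n : ℝ) + Real.log Z + uu φ x) := by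
      intro x
      rw [integrand_eq hφ hlam hh hZ]
      ring
    simp only [h1]
    rw [integral_add (hint _ hc1) (hint _ hc2), integral_const_mul, hlap0, mul_zero, zero_add,
      ← hμint fun x => (n : ℝ) + Real.log Z + uu φ x]
    haveI := hprob
    have hintμ : Integrable (uu φ) μ := (continuous_uu hφ).integrable_of_hasCompactSupport
      (HasCompactSupport.of_compactSpace _)
    rw [integral_add (integrable_const _) hintμ, integral_const]
    simp
  rw [W, hI]
  have hJ : ∫ x, Real.log (dl (fun e y => φ e y + a : Fam n M ℝ) x) ∂μ =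
      a + ∫ x, uu φ x ∂μ := by
    haveI := hprob
    have hintμ : Integrable (uu φ) μ := (continuous_uu hφ).integrable_of_hasCompactSupport
      (HasCompactSupport.of_compactSpace _)
    have h1 : ∀ x, Real.log (dl (fun e y => φ e y + a : Fam n M ℝ) x) = a + uu φ x := by
      intro x
      rw [dl_addc hφ, Real.log_mul (Real.exp_pos a).ne' (dl_pos hφ x).ne', Real.log_exp]
      rfl
    simp only [h1]
    rw [integral_add (integrable_const _) hintμ, integral_const]
    simp
  rw [hJ, ha, Real.log_div hZ.ne' (by positivity), Real.log_pow,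
    show 4 * Real.pi * (lam / 2) = (2 * lam) * Real.pi by ring,
    Real.log_mul (by positivity) Real.pi_pos.ne']
  ring

end Pool.Agent.helper63.NU
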