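import Pool.Agent.helper63.NU.T
import Pool.Agent.helper63.NU.H2b
import Pool.Agent.helper63.NU.Defs4
import Pool.Agent.helper63.NU.Stub.Q2
import Pool.Agent.helper63.NU.Stub.Q5
import Pool.Agent.helper63.NU.Stub.Q6c
import Pool.Agent.helper63.NU.Stub.Q7
import Pool.Agent.helper63.NU.Stub.Q9
import Pool.Agent.helper63.NU.Stub.Q11
import Pool.Agent.helper63.NU.Stub.Q12
import Pool.Agent.helper63.NU.Stub.Q13
import Pool.Agent.helper63.NU.Stub.R1
import Pool.Agent.helper63.NU.Stub.R2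
import Pool.Agent.helper63.NU.Stub.M1c
import Pool.Agent.helper63.NU.Stub.M3c
import Pool.Agent.helper59.NU.P12
import Pool.Agent.helper31.NU.P15

set_option autoImplicit false

/-! Stage 2: the full answer to Q1 of MP_737c0a_gt. -/

open MeasureTheory Filter Topology Set
open scoped ContDiff Manifold Matrix ENNReal ComplexOrder

noncomputable section

namespace Pool.Agent.helper63.NU

variable {n : ℕ} {M : Type*} [TopologicalSpace M] [ChartedSpace (E n) M]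
  [IsManifold 𝓘(ℂ, E n) ω M] [CompactSpace M] [T2Space M] [MeasurableSpace M] [BorelSpace M]

theorem isPos_of_kahler {h : MFam n M} (hK : IsKahler h) {lam : ℝ} (hlam : 0 < lam)
    {φ : Fam n M ℝ} (hφ : IsWeight 1 φ)
    (hh : ∀ e ∈ atlas (E n) M, ∀ y ∈ e.target, h e y = ((2 * lam : ℝ) : ℂ) • lev (φ e) y) :
    IsPos 1 φ := by
  refine ⟨hφ, fun e he y hy => ?_⟩
  have h1 := hK.pos e he y hy
  have h2 : lev (φ e) y = (((2 * lam)⁻¹ : ℝ) : ℂ) • h e y := by
    rw [hh e he y hy, smul_smul, ← Complex.ofReal_mul, inv_mul_cancel₀ (by positivity)]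
    simp
  rw [h2]
  have h3 : (0 : ℝ) < (2 * lam)⁻¹ := by positivity
  exact h1.smul (by exact_mod_cast h3)

variable [ConnectedSpace M]

/-- `ν(M,g) ≤ log((n+1)^n/n!) - n` -/
theorem nu_le (hn : 0 < n) {h : MFam n M} {lam : ℝ} (hlam : 0 < lam) (hK : IsKahler h)
    (hcl : InClass lam h) {dv : Measure M} (hv : IsVol h dv) :
    nu h dv ≤ ((cval n : ℝ) : EReal) := by
  obtain ⟨φ, hφ, hh⟩ := hcl
  have hne : Nonempty M := ConnectedSpace.toNonempty
  have hpos := isPos_of_kahler hK hlam hφ hh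
  obtain ⟨φ', μ, f, h0, h1, h2, h3, h4, h5, h6, h7⟩ := W_comp2 hpos hlam hh hv
  refine (nu_le_of_smooth hpos hlam hh hv h4 h5 h6 (half_pos hlam)).trans ?_
  rw [EReal.coe_le_coe_iff, h7]
  have h8 := main_T (μ := μ) hn h1 h2
  have hπ := Real.pi_pos
  rw [Real.log_mul hπ.ne' (by positivity)] at h8
  rw [cval]
  linarith

/-- a Fano manifold with a Kähler–Einstein weight and maximal volume has the structure of
projective space on the sections of `-K` -/
theorem isZ_of_ke (hn : 0 < n) {φ : Fam n M ℝ} (hφ : IsPos 1 φ) {μ : Measure M}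
    [IsProbabilityMeasure μ] (hμ : IsDens μ φ)
    (hdl : ∀ x, dl φ x = (Real.pi * (n + 1)) ^ n / n.factorial)
    (hdim : ∀ η > 0, ∃ k₀ : ℕ, ∀ k ≥ k₀, (Module.finrank ℂ (H0 n M k) : ℝ)
      ≤ ((n + 1) ^ n / n.factorial + η) * (k : ℝ) ^ n) :
    ∃ z : (Fin (n + 1) → ℕ) → Fam n M ℂ, IsZ z := by
  have hne : Nonempty M := ConnectedSpace.toNonempty
  have hJ : JetsIso n M := jetsIso hn hφ hμ
    (fun k hk e he p hp s hs hs0 m hv => star hn hφ hμ hdl hdim hk he hp hs hs0 hv)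
    (fun δ hδ => gen_surj hn hφ hμ hdl hdim hδ)
  obtain ⟨x⟩ := hne
  have he : chartAt (E n) x ∈ atlas (E n) M := chart_mem_atlas _ _
  have hp : chartAt (E n) x x ∈ (chartAt (E n) x).target :=
    (chartAt (E n) x).map_source (mem_chart_source _ _)
  obtain ⟨z, h1, h2, h3, h4, h5⟩ := z_sections hn hJ he hp (y_sections hn hφ hμ hJ he hp)
  exact ⟨z, ⟨h1, h2, h3, h4, h5⟩⟩

/-- equality implies that `M` is isometric to projective space -/
theorem iso_of_eq (hn : 0 < n) {h : MFam n M} {lam : ℝ} (hlam : 0 < lam) (hK : IsKahler h)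
    (hcl : InClass lam h) {dv : Measure M} (hv : IsVol h dv)
    (heq : ((cval n : ℝ) : EReal) ≤ nu h dv) :
    ∃ (Φ : Diffeomorph 𝓘(ℂ, E n) 𝓘(ℂ, E n) M (CP n) ω) (c : ℝ), 0 < c ∧
      IsoUpTo c h (hFS n) Φ := by
  obtain ⟨φ, hφ, hh⟩ := hcl
  have hne : Nonempty M := ConnectedSpace.toNonempty
  have hpos := isPos_of_kahler hK hlam hφ hh
  obtain ⟨φ', μ, f, h0, h1, h2, h3, h4, h5, h6, h7⟩ := W_comp2 hpos hlam hh hv
  have h8 := heq.trans (nu_le_of_smooth hpos hlam hh hv h4 h5 h6 (half_pos hlam))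
  rw [EReal.coe_le_coe_iff, h7] at h8
  have h9 : n * Real.log (Real.pi * (n + 1)) - Real.log n.factorial
      ≤ ∫ x, Real.log (dl φ' x) ∂μ := by
    rw [Real.log_mul Real.pi_pos.ne' (by positivity)]
    rw [cval] at h8
    linarith
  obtain ⟨hdl, hdim⟩ := ke_of_eq hn h1 h2 h9
  have hz := isZ_of_ke hn h1 h2 hdl hdim
  obtain ⟨Φ⟩ := exists_diffeo h1 hz (fun x x' hxx => separate h1 h2 hxx)
  have hh' : ∀ e ∈ atlas (E n) M, ∀ y ∈ e.target,
      h e y = ((2 * lam : ℝ) : ℂ) • lev (φ' e) y := by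
    intro e he y hy
    rw [hh e he y hy, h0 e he y hy]
  obtain ⟨Ψ, hΨ⟩ := iso_of_ke hn h1 h2 hdl Φ hlam hh'
  exact ⟨Ψ, _, by positivity, hΨ⟩

/-- `ν(ℂP^n, g_FS) = log((n+1)^n/n!) - n` -/
theorem nuFS_eq (hn : 0 < n) : nu (hFS n) (dvFS n) = ((cval n : ℝ) : EReal) :=
  le_antisymm (nu_le hn (lam := 1 / (2 * (n + 1))) (by positivity) isKahler_hFS inClass_hFS
    isVol_dvFS) (Pool.Agent.helper31.NU.nuFS_ge n hn)

/-- The full answer to Q1. -/
theorem main (hn : 0 < n) {h : MFam n M} {lam : ℝ} (hlam : 0 < lam) (hK : IsKahler h)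
    (hcl : InClass lam h) {dv : Measure M} (hv : IsVol h dv) :
    nu h dv ≤ nu (hFS n) (dvFS n) ∧
    (nu h dv = nu (hFS n) (dvFS n) ↔
      ∃ (Φ : Diffeomorph 𝓘(ℂ, E n) 𝓘(ℂ, E n) M (CP n) ω) (c : ℝ), 0 < c ∧
        IsoUpTo c h (hFS n) Φ) := by
  refine ⟨?_, fun heq => ?_, ?_⟩
  · rw [nuFS_eq hn]
    exact nu_le hn hlam hK hcl hv
  · rw [nuFS_eq hn] at heq
    exact iso_of_eq hn hlam hK hcl hv heq.ge
  · rintro ⟨Φ, c, hc, hiso⟩
    exact nu_eq_of_iso Φ hK isKahler_hFS hv isVol_dvFS hc hiso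

end Pool.Agent.helper63.NU
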