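import Pool.Agent.helper63.NU.E4
import Pool.Agent.helper69.NU.B2
import Pool.Agent.helper41.NU.B2c
import Pool.Agent.helper51.NU.B3
import Pool.Agent.helper80.NU.B4
import Pool.Agent.helper18.NU.D4
import Pool.Agent.helper59.NU.F1
import Pool.Agent.helper69.NU.F2

set_option autoImplicit false

/-! The inequality at a finite level `k`. -/

open MeasureTheory Filter Topology Set
open scoped ContDiff Manifold Matrix ENNReal ComplexOrder

noncomputable section

namespace Pool.Agent.helper63.NU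

variable {n : ℕ} {M : Type*} [TopologicalSpace M] [ChartedSpace (E n) M]
  [IsManifold 𝓘(ℂ, E n) ω M]
variable [CompactSpace M] [T2Space M] [ConnectedSpace M] [MeasurableSpace M] [BorelSpace M]
  {μ : Measure M} {φ : Fam n M ℝ}

/-- the values of sections in unitary frames -/
def uf (k : ℕ) (φ : Fam n M ℝ) {N : ℕ} (s : Fin N → Fam n M ℂ) (x : M) (j : Fin N) : ℂ :=
  s j (chartAt (E n) x) (chartAt (E n) x x) *
    (Real.exp (-(k * φ (chartAt (E n) x) (chartAt (E n) x x)) / 2) : ℂ)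

omit [IsManifold 𝓘(ℂ, E n) ω M] [CompactSpace M] [T2Space M] [ConnectedSpace M]
  [MeasurableSpace M] [BorelSpace M] in
theorem uf_norm_sq (k : ℕ) (φ : Fam n M ℝ) {N : ℕ} (s : Fin N → Fam n M ℂ) (c : Fin N → ℂ)
    (x : M) : ‖∑ j, c j * uf k φ s x j‖ ^ 2 = nrm k φ (∑ j, c j • s j) x := by
  have h1 : ∑ j, c j * uf k φ s x j = (∑ j, c j • s j) (chartAt (E n) x) (chartAt (E n) x x) *
      (Real.exp (-(k * φ (chartAt (E n) x) (chartAt (E n) x x)) / 2) : ℂ) := by
    simp only [uf, Finset.sum_apply, Pi.smul_apply, smul_eq_mul, Finset.sum_mul, mul_assoc]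
  rw [h1, nrm, norm_mul, mul_pow]
  congr 1
  rw [Complex.norm_real, Real.norm_eq_abs, abs_of_pos (Real.exp_pos _), ← Real.exp_nat_mul]
  congr 1
  push_cast
  ring

omit [IsManifold 𝓘(ℂ, E n) ω M] [CompactSpace M] [T2Space M] [ConnectedSpace M]
  [MeasurableSpace M] [BorelSpace M] in
theorem uf_norm_sq' (k : ℕ) (φ : Fam n M ℝ) {N : ℕ} (s : Fin N → Fam n M ℂ) (j : Fin N)
    (x : M) : ‖uf k φ s x j‖ ^ 2 = nrm k φ (s j) x := by
  have := uf_norm_sq k φ s (Pi.single j 1) x
  simpa [Pi.single_apply, ite_mul, ite_smul] using this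

omit [IsManifold 𝓘(ℂ, E n) ω M] [CompactSpace M] [T2Space M] [ConnectedSpace M]
  [MeasurableSpace M] [BorelSpace M] in
theorem uf_hp (k : ℕ) (φ : Fam n M ℝ) {N : ℕ} (s : Fin N → Fam n M ℂ) (i j : Fin N)
    (x : M) : uf k φ s x i * (starRingEnd ℂ) (uf k φ s x j) = hp k φ (s i) (s j) x := by
  simp only [uf, hp, map_mul, Complex.conj_ofReal]
  have : (Real.exp (-(k * φ (chartAt (E n) x) (chartAt (E n) x x)) / 2) : ℂ) *
      (Real.exp (-(k * φ (chartAt (E n) x) (chartAt (E n) x x)) / 2) : ℂ) =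
      (Real.exp (-(k * φ (chartAt (E n) x) (chartAt (E n) x x))) : ℂ) := by
    rw [← Complex.ofReal_mul, ← Real.exp_add]; congr 2; ring
  rw [← this]; ring

theorem hp_sum_left (k : ℕ) (φ : Fam n M ℝ) {N : ℕ} (s : Fin N → Fam n M ℂ) (c : Fin N → ℂ)
    (t : Fam n M ℂ) (x : M) : hp k φ (∑ j, c j • s j) t x = ∑ j, c j * hp k φ (s j) t x := by
  simp only [hp, Finset.sum_apply, Pi.smul_apply, smul_eq_mul, Finset.sum_mul, mul_assoc]

/-- The inequality at level `k`. -/
theorem level [IsProbabilityMeasure μ] (hn : 0 < n) (hφ : IsPos 1 φ) (hμ : IsDens μ φ) {k N : ℕ}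
    (hN : 0 < N) {s : Fin N → Fam n M ℂ} (hs : ∀ j, IsHol k (s j))
    (horth : ∀ i j, ∫ x, hp k φ (s i) (s j) x * (dl φ x : ℂ) ∂μ = if i = j then 1 else 0)
    {m m' : ℝ} (hm : 0 < m) (hm1 : ∀ x, m ≤ ∑ j, nrm k φ (s j) x)
    (hm2 : ∀ x, ∑ j, nrm k φ (s j) x ≤ m') {θ : ℝ} (hθ : 0 < θ) (hθk : θ * k < 1) :
    (∫ x, Real.log (dl φ x * (∑ j, nrm k φ (s j) x) ^ θ *
        (∫ x, (∑ j, nrm k φ (s j) x) ^ (-θ) ∂μ)) *
        ((∑ j, nrm k φ (s j) x) ^ (-θ) / (∫ x, (∑ j, nrm k φ (s j) x) ^ (-θ) ∂μ)) ∂μ)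
        + Real.log m
      ≤ n * Real.log ((n + 1) * (1 / θ + 1)) - Real.log (n.factorial) := by
  haveI : Nonempty M := ConnectedSpace.toNonempty
  have hw : IsWeight 1 φ := hφ.toIsWeight
  have hsum : ∀ c : Fin N → ℂ, IsHol k (∑ j, c j • s j) := fun c =>
    IsHol.sum _ fun j _ => (hs j).smul (c j)
  have hnrmS : ∀ x, ∑ j, ‖uf k φ s x j‖ ^ 2 = ∑ j, nrm k φ (s j) x := fun x =>
    Finset.sum_congr rfl fun j _ => uf_norm_sq' k φ s j x
  have hmeas : ∀ c : Fin N → ℂ, Measurable fun x => ‖∑ j, c j * uf k φ s x j‖ := by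
    intro c
    have h1 : (fun x => ‖∑ j, c j * uf k φ s x j‖)
        = fun x => Real.sqrt (nrm k φ (∑ j, c j • s j) x) := by
      funext x
      rw [← uf_norm_sq, Real.sqrt_sq (norm_nonneg _)]
    rw [h1]
    exact (Real.continuous_sqrt.comp (continuous_nrm hw (hsum c).toIsSec)).measurable
  -- bounds of dl
  have hdlc := continuous_dl hφ
  obtain ⟨xm, -, hxm⟩ := isCompact_univ.exists_isMinOn (univ_nonempty (α := M)) hdlc.continuousOn
  obtain ⟨xM, -, hxM⟩ := isCompact_univ.exists_isMaxOn (univ_nonempty (α := M)) hdlc.continuousOn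
  have hFF : ∀ (C : Matrix (Fin N) (Fin N) ℂ) (w : Fin N → ℝ), FF μ θ (uf k φ s) C w =
      -Real.log (∫ x, (∑ i, Real.exp (w i) * nrm k φ (∑ j, C i j • s j) x) ^ (-θ) ∂μ) := by
    intro C w
    unfold FF
    congr 3
    funext x
    congr 1
    refine Finset.sum_congr rfl fun i _ => ?_
    rw [← uf_norm_sq]; rfl
  -- positivity for invertible matrices
  have hpos : ∀ C : Matrix (Fin N) (Fin N) ℂ, IsUnit C.det →
      ∀ x, 0 < ∑ i, nrm k φ (∑ j, C i j • s j) x := by
    intro C hC x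
    have h0 : (0 : ℝ) < ∑ j, ‖uf k φ s x j‖ ^ 2 := by rw [hnrmS]; exact hm.trans_le (hm1 x)
    have hne : C.mulVec (uf k φ s x) ≠ 0 := by
      intro h
      have h2 : uf k φ s x = 0 := by
        have := Matrix.eq_zero_of_mulVec_eq_zero hC.ne_zero h
        exact this
      rw [h2] at h0
      simp at h0
    have h3 : ∑ i, nrm k φ (∑ j, C i j • s j) x = ∑ i, ‖C.mulVec (uf k φ s x) i‖ ^ 2 := by
      refine Finset.sum_congr rfl fun i _ => ?_
      rw [← uf_norm_sq]; rfl
    rw [h3]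
    obtain ⟨i, hi⟩ := Function.ne_iff.mp hne
    refine Finset.sum_pos' (fun _ _ => by positivity) ⟨i, Finset.mem_univ _, ?_⟩
    have : 0 < ‖C.mulVec (uf k φ s x) i‖ := norm_pos_iff.mpr hi
    positivity
  have hcv : ∀ C : Matrix (Fin N) (Fin N) ℂ, IsUnit C.det →
      ConvexOn ℝ univ (FF μ θ (uf k φ s) C) := by
    intro C hC
    have h1 := ding_convex (s := fun i => ∑ j, C i j • s j) hφ hμ (fun i => hsum (C i))
      (hpos C hC) hθ hθk
    have h2 : FF μ θ (uf k φ s) C = fun w : Fin N → ℝ =>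
      -Real.log (∫ x, (∑ i, Real.exp (w i) * nrm k φ (∑ j, C i j • s j) x) ^ (-θ) ∂μ) :=
      funext (hFF C)
    rw [h2]; exact h1
  have hjet : ∀ C : Matrix (Fin N) (Fin N) ℂ, IsUnit C.det → ∀ lam : Fin N → ℝ,
      ∃ (C' : Matrix (Fin N) (Fin N) ℂ)
      (σ : Equiv.Perm (Fin N)) (α : Fin N → Fin n → ℕ), IsUnit C'.det ∧ Function.Injective α ∧
      (∀ i β, β ≤ α i → ∃ j, α j = β) ∧ (∀ i j, C' i j ≠ 0 → lam (σ i) ≤ lam j) ∧
      (∀ i j, α i ≤ α j → lam (σ j) ≤ lam (σ i)) ∧
      ∃ K : ℝ, ∀ t ≥ (0 : ℝ), FF μ θ (uf k φ s) (C' * C) (fun i => t * (∑ a, α i a : ℕ))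
        ≤ n * t + K := by
    intro C hC lam
    obtain ⟨x₀⟩ := (inferInstance : Nonempty M)
    set e := chartAt (E n) x₀ with he_def
    have he : e ∈ atlas (E n) M := chart_mem_atlas _ x₀
    set b : Fin N → E n → ℂ := fun i => (∑ j, C i j • s j : Fam n M ℂ) e with hb
    have hind : ∀ V ⊆ e.target, IsOpen V → V.Nonempty → ∀ c : Fin N → ℂ,
        (∀ y ∈ V, ∑ j, c j * b j y = 0) → c = 0 := by
      intro V hVe hV hVne c hc
      set c' : Fin N → ℂ := fun j => ∑ i, c i * C i j with hc'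
      have h1 : ∀ e' ∈ atlas (E n) M, ∀ y ∈ e'.target, (∑ j, c' j • s j : Fam n M ℂ) e' y = 0 := by
        refine (hsum c').eq_zero he hV hVne hVe fun y hy => ?_
        rw [← hc y hy]
        simp only [hb, hc', Finset.sum_apply, Pi.smul_apply, smul_eq_mul, Finset.sum_mul,
          Finset.mul_sum]
        rw [Finset.sum_comm]
        refine Finset.sum_congr rfl fun i _ => Finset.sum_congr rfl fun j _ => by ring
      have h2 : c' = 0 := by
        funext i
        have h3 : ∫ x, hp k φ (∑ j, c' j • s j) (s i) x * (dl φ x : ℂ) ∂μ = c' i := by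
          have h4 : ∀ x, hp k φ (∑ j, c' j • s j) (s i) x * (dl φ x : ℂ)
              = ∑ j, c' j * (hp k φ (s j) (s i) x * (dl φ x : ℂ)) := by
            intro x
            rw [hp_sum_left, Finset.sum_mul]
            refine Finset.sum_congr rfl fun j _ => by ring
          simp_rw [h4]
          rw [integral_finset_sum]
          · simp_rw [integral_const_mul, horth]
            simp
          · intro j _
            refine Integrable.const_mul ?_ _
            refine Continuous.integrable_of_hasCompactSupport ?_ (HasCompactSupport.of_compactSpace _)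
            exact (continuous_hp hw (hs j).toIsSec (hs i).toIsSec).mul
              (Complex.continuous_ofReal.comp hdlc)
        rw [← h3, Pi.zero_apply]
        refine integral_eq_zero_of_ae (Eventually.of_forall fun x => ?_)
        have h5 := h1 (chartAt (E n) x) (chart_mem_atlas _ x) (chartAt (E n) x x)
          ((chartAt (E n) x).map_source (mem_chart_source _ x))
        simp only [hp, h5, zero_mul, Pi.zero_apply]
      have h6 : Matrix.vecMul c C = 0 := by
        funext j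
        have := congrFun h2 j
        simpa [hc', Matrix.vecMul, dotProduct] using this
      exact Matrix.eq_zero_of_vecMul_eq_zero hC.ne_zero h6
    obtain ⟨p, hp, C', σ, α, hC', h1, h2, h3, h4, h5⟩ := jets e.open_target
      ⟨e x₀, e.map_source (mem_chart_source _ x₀)⟩ b (fun i => (hsum (C i)).hol e he) hind lam
    refine ⟨C', σ, α, hC', h1, h2, h3, h4, ?_⟩
    have hCC : IsUnit (C' * C).det := by rw [Matrix.det_mul]; exact hC'.mul hC
    obtain ⟨K, hK⟩ := jet_slope (s := fun i => ∑ j, (C' * C) i j • s j) (m := fun i => ∑ a, α i a)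
      hφ hμ (fun i => hsum _) (hpos _ hCC) he hp (fun i => by
        obtain ⟨K, hK⟩ := h5 i
        refine ⟨K, ?_⟩
        filter_upwards [hK] with y hy
        have : (∑ j, (C' * C) i j • s j : Fam n M ℂ) e y = ∑ j, C' i j * b j y := by
          simp only [hb, Finset.sum_apply, Pi.smul_apply, smul_eq_mul, Matrix.mul_apply,
            Finset.sum_mul, Finset.mul_sum]
          rw [Finset.sum_comm]
          refine Finset.sum_congr rfl fun i _ => Finset.sum_congr rfl fun j _ => by ring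
        rw [this]; exact hy) hθ
    refine ⟨K, fun t ht => ?_⟩
    rw [hFF]
    exact hK t ht
  have := E_main (μ := μ) (S := uf k φ s) (D := dl φ) (m := m) (m' := m') (d := dl φ xm)
    (d' := dl φ xM) hn hN hmeas hm (fun x => by rw [hnrmS]; exact hm1 x)
    (fun x => by rw [hnrmS]; exact hm2 x) hθ hdlc.measurable (dl_pos hφ xm)
    (fun x => hxm (mem_univ x)) (fun x => hxM (mem_univ x))
    (fun i j => by simp_rw [uf_hp]; exact horth i j) hcv hjet
  simp_rw [hnrmS] at this
  exact this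

end Pool.Agent.helper63.NU
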