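import Pool.Agent.helper63.NU.Stmt

set_option autoImplicit false

/-!
# MP_737c0a_gt: the entropy `ν(M,g)`

`W^{1,2}(M)` is the closure of the smooth functions, Perelman's functional on `W^{1,2}` and its
infimum `ν(M,g)`.
-/

open MeasureTheory Filter Topology Set
open scoped ContDiff Manifold Matrix ENNReal ComplexOrder

noncomputable section

namespace Pool.Agent.helper63.NU

variable {n : ℕ} {M : Type*} [TopologicalSpace M] [ChartedSpace (E n) M]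

/-- `u ∈ W^{1,2}(M)` with `∫ |∇u|² dv = D`: `u` is square integrable, it is the limit in `L²` of
smooth functions `f_i` with `∇f_i` Cauchy in `L²`, and `∫ |∇f_i|² dv → D`. -/
def IsW12 [MeasurableSpace M] (h : MFam n M) (dv : Measure M) (u : M → ℝ) (D : ℝ) : Prop :=
  MemLp u 2 dv ∧ ∃ f : ℕ → M → ℝ, (∀ i, Sm n fun x => ((f i x : ℝ) : ℂ)) ∧
    Tendsto (fun i => ∫ x, (f i x - u x) ^ 2 ∂dv) atTop (𝓝 0) ∧
    (∀ ε > 0, ∃ N, ∀ i ≥ N, ∀ j ≥ N, ∫ x, grad2 h (fun x => f i x - f j x) x ∂dv ≤ ε) ∧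
    Tendsto (fun i => ∫ x, grad2 h (f i) x ∂dv) atTop (𝓝 D)

/-- Perelman's functional for `u ∈ W^{1,2}(M)` with `∫ |∇u|² dv = D`, in the normalisation of the
problem (`m = 2n`):
`-m - (m/2) log(4πτ) + ∫ (τ (R u² + 4|∇u|²) - 2 u² log u) dv`. -/
def W12 [MeasurableSpace M] (h : MFam n M) (dv : Measure M) (u : M → ℝ) (D τ : ℝ) : ℝ :=
  -(2 * n : ℝ) - n * Real.log (4 * Real.pi * τ) +
    (τ * ((∫ x, scal h x * u x ^ 2 ∂dv) + 4 * D) - ∫ x, 2 * u x ^ 2 * Real.log (u x) ∂dv)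

/-- `ν(M,g)`: the infimum of Perelman's functional over `τ > 0` and `u ∈ W^{1,2}(M)`, `u ≥ 0`,
`∫ u² dv = 1`. -/
def nu [MeasurableSpace M] (h : MFam n M) (dv : Measure M) : EReal :=
  ⨅ (u : M → ℝ) (D : ℝ) (τ : ℝ)
    (_ : 0 < τ ∧ IsW12 h dv u D ∧ (∀ x, 0 ≤ u x) ∧ ∫ x, u x ^ 2 ∂dv = 1),
    ((W12 h dv u D τ : ℝ) : EReal)

/-- the value `log ((n+1)^n / n!) - n` of `ν(ℂP^n, g_FS)` -/
def cval (n : ℕ) : ℝ := n * Real.log (n + 1) - Real.log n.factorial - n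

end Pool.Agent.helper63.NU
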