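import Pool.Agent.helper63.NU.Stmt2

set_option autoImplicit false

/-! # MP_737c0a_gt: isometries up to a constant factor -/

open MeasureTheory Filter Topology Set
open scoped ContDiff Manifold Matrix ENNReal ComplexOrder

noncomputable section

namespace Pool.Agent.helper63.NU

variable {n : ℕ} {M M' : Type*} [TopologicalSpace M] [ChartedSpace (E n) M]
  [TopologicalSpace M'] [ChartedSpace (E n) M']

/-- `c · h = Φ^* h'` (for a holomorphic map `Φ`; `D` is its complex derivative in charts). -/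
def IsoUpTo (c : ℝ) (h : MFam n M) (h' : MFam n M') (Φ : M → M') : Prop :=
  ∀ e ∈ atlas (E n) M, ∀ e' ∈ atlas (E n) M', ∀ x ∈ e.source, Φ x ∈ e'.source → ∀ v w : E n,
    (c : ℂ) * ∑ j, ∑ k, h e (e x) j k * v j * (starRingEnd ℂ) (w k)
      = ∑ j, ∑ k, h' e' (e' (Φ x)) j k *
        (fderiv ℂ (fun z => e' (Φ (e.symm z))) (e x) v) j *
        (starRingEnd ℂ) ((fderiv ℂ (fun z => e' (Φ (e.symm z))) (e x) w) k)

end Pool.Agent.helper63.NU
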