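import Pool.Agent.helper63.NU.Level
import Pool.Agent.helper99.NU.C5

set_option autoImplicit false

/-! The inequality `∫ log (det ∂∂̄φ e^φ) dμ ≤ n log (π (n+1)) - log n!`. -/

open MeasureTheory Filter Topology Set
open scoped ContDiff Manifold Matrix ENNReal ComplexOrder

noncomputable section

namespace Pool.Agent.helper63.NU

variable {n : ℕ} {M : Type*} [TopologicalSpace M] [ChartedSpace (E n) M]
  [IsManifold 𝓘(ℂ, E n) ω M]
variable [CompactSpace M] [T2Space M] [ConnectedSpace M] [MeasurableSpace M] [BorelSpace M]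
  {μ : Measure M} {φ : Fam n M ℝ}

/-- elementary part: replacing the density `r` by `1` -/
theorem replace_density {X : Type*} [MeasurableSpace X] {μ : Measure X} [IsProbabilityMeasure μ]
    {g ρ : X → ℝ} (hg : Measurable g) (hρ : Measurable ρ) {d d' m m' θ : ℝ} (hd : 0 < d)
    (hd1 : ∀ x, d ≤ g x) (hd2 : ∀ x, g x ≤ d') (hm : 0 < m) (hm1 : ∀ x, m ≤ ρ x)
    (hm2 : ∀ x, ρ x ≤ m') (hθ : 0 < θ) {B : ℝ} (hB : ∀ x, |Real.log (g x)| ≤ B) :
    ∫ x, Real.log (g x) ∂μ ≤ (∫ x, Real.log (g x * ρ x ^ θ * ∫ x, ρ x ^ (-θ) ∂μ) *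
      (ρ x ^ (-θ) / ∫ x, ρ x ^ (-θ) ∂μ) ∂μ) + Real.log ((m' / m) ^ θ) + B * ((m' / m) ^ θ - 1) := by
  obtain ⟨x₀⟩ : Nonempty X := by
    by_contra h
    rw [not_nonempty_iff] at h
    have : μ univ = 0 := by rw [Set.univ_eq_empty_iff.mpr h]; simp
    simp at this
  have hm' : 0 < m' := hm.trans_le ((hm1 x₀).trans (hm2 x₀))
  have hρp : ∀ x, 0 < ρ x := fun x => hm.trans_le (hm1 x)
  have hgp : ∀ x, 0 < g x := fun x => hd.trans_le (hd1 x)
  have hmeas : Measurable fun x => ρ x ^ (-θ) := hρ.pow_const _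
  have hlo : ∀ x, m' ^ (-θ) ≤ ρ x ^ (-θ) := fun x =>
    Real.rpow_le_rpow_of_nonpos (hρp x) (hm2 x) (by linarith)
  have hup : ∀ x, ρ x ^ (-θ) ≤ m ^ (-θ) := fun x =>
    Real.rpow_le_rpow_of_nonpos hm (hm1 x) (by linarith)
  have hint : Integrable (fun x => ρ x ^ (-θ)) μ := by
    refine Integrable.of_bound hmeas.aestronglyMeasurable (m ^ (-θ)) (Eventually.of_forall fun x => ?_)
    rw [Real.norm_eq_abs, abs_of_pos (Real.rpow_pos_of_pos (hρp x) _)]
    exact hup x
  set Z := ∫ x, ρ x ^ (-θ) ∂μ with hZ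
  have hZ1 : m' ^ (-θ) ≤ Z := by
    have := integral_mono (μ := μ) (integrable_const _) hint hlo
    simpa using this
  have hZ2 : Z ≤ m ^ (-θ) := by
    have := integral_mono (μ := μ) hint (integrable_const _) hup
    simpa using this
  have hmp : 0 < m' ^ (-θ) := Real.rpow_pos_of_pos hm' _
  have hZp : 0 < Z := hmp.trans_le hZ1
  set q := (m' / m) ^ θ with hq
  have hq1 : 1 ≤ q := by
    refine Real.one_le_rpow ?_ hθ.le
    rw [le_div_iff₀ hm, one_mul]
    exact (hm1 x₀).trans (hm2 x₀)
  have hqe : m ^ (-θ) / m' ^ (-θ) = q := by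
    rw [hq, Real.div_rpow hm'.le hm.le, Real.rpow_neg hm.le, Real.rpow_neg hm'.le]
    field_simp
  set r : X → ℝ := fun x => ρ x ^ (-θ) / Z with hr
  have hrm : Measurable r := hmeas.div_const _
  have hr1 : ∀ x, r x ≤ q := by
    intro x
    rw [← hqe]
    simp only [hr]
    exact div_le_div₀ (Real.rpow_pos_of_pos hm _).le (hup x) hmp hZ1
  have hr2 : ∀ x, 1 / q ≤ r x := by
    intro x
    rw [← hqe, one_div_div]
    simp only [hr]
    exact div_le_div₀ (Real.rpow_pos_of_pos (hρp x) _).le (hlo x) hZp hZ2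
  have hqp : 0 < q := by linarith
  have hrp : ∀ x, 0 < r x := fun x => (by positivity : (0 : ℝ) < 1 / q).trans_le (hr2 x)
  have hrint : Integrable r μ := hint.div_const _
  have hr3 : ∫ x, r x ∂μ = 1 := by
    simp only [hr]
    rw [integral_div, ← hZ, div_self hZp.ne']
  have hid : ∀ x, Real.log (g x * ρ x ^ θ * Z) * r x
      = Real.log (g x) * r x - Real.log (r x) * r x := by
    intro x
    have h1 : g x * ρ x ^ θ * Z = g x / r x := by
      simp only [hr]
      rw [Real.rpow_neg (hρp x).le]
      have := (Real.rpow_pos_of_pos (hρp x) θ).ne'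
      field_simp
    rw [h1, Real.log_div (hgp x).ne' (hrp x).ne']
    ring
  have hlogg : Measurable fun x => Real.log (g x) := Real.measurable_log.comp hg
  have hlogr : Measurable fun x => Real.log (r x) := Real.measurable_log.comp hrm
  have hBp : 0 ≤ B := (abs_nonneg _).trans (hB x₀)
  have hLq : ∀ x, |Real.log (r x)| ≤ Real.log q := by
    intro x
    rw [abs_le]
    constructor
    · have := Real.log_le_log (by positivity) (hr2 x)
      rwa [one_div, Real.log_inv] at this
    · exact Real.log_le_log (hrp x) (hr1 x)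
  have hI1 : Integrable (fun x => Real.log (g x) * r x) μ := by
    refine Integrable.of_bound (hlogg.mul hrm).aestronglyMeasurable (B * q)
      (Eventually.of_forall fun x => ?_)
    rw [norm_mul, Real.norm_eq_abs, Real.norm_eq_abs, abs_of_pos (hrp x)]
    exact mul_le_mul (hB x) (hr1 x) (hrp x).le hBp
  have hI2 : Integrable (fun x => Real.log (r x) * r x) μ := by
    refine Integrable.of_bound (hlogr.mul hrm).aestronglyMeasurable (Real.log q * q)
      (Eventually.of_forall fun x => ?_)
    rw [norm_mul, Real.norm_eq_abs, Real.norm_eq_abs, abs_of_pos (hrp x)]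
    exact mul_le_mul (hLq x) (hr1 x) (hrp x).le (Real.log_nonneg hq1)
  have hI3 : Integrable (fun x => Real.log (g x)) μ := by
    refine Integrable.of_bound hlogg.aestronglyMeasurable B (Eventually.of_forall fun x => ?_)
    rw [Real.norm_eq_abs]; exact hB x
  have e1 : ∫ x, Real.log (g x * ρ x ^ θ * Z) * r x ∂μ
      = ∫ x, Real.log (g x) * r x ∂μ - ∫ x, Real.log (r x) * r x ∂μ := by
    simp_rw [hid]
    exact integral_sub hI1 hI2
  have e2 : ∫ x, Real.log (r x) * r x ∂μ ≤ Real.log q := by
    have h1 : ∫ x, Real.log (r x) * r x ∂μ ≤ ∫ x, Real.log q * r x ∂μ := by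
      refine integral_mono hI2 (hrint.const_mul _) fun x => ?_
      exact mul_le_mul_of_nonneg_right ((le_abs_self _).trans (hLq x)) (hrp x).le
    rw [integral_const_mul, hr3, mul_one] at h1
    exact h1
  have e3 : ∫ x, Real.log (g x) ∂μ - ∫ x, Real.log (g x) * r x ∂μ ≤ B * (q - 1) := by
    rw [← integral_sub hI3 hI1]
    have h1 : ∫ x, (Real.log (g x) - Real.log (g x) * r x) ∂μ ≤ ∫ _x, B * (q - 1) ∂μ := by
      refine integral_mono (hI3.sub hI1) (integrable_const _) fun x => ?_
      have h2 : Real.log (g x) - Real.log (g x) * r x = Real.log (g x) * (1 - r x) := by ring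
      have h3 : |1 - r x| ≤ q - 1 := by
        rw [abs_le]
        constructor
        · linarith [hr1 x]
        · have h4 : 2 - q ≤ 1 / q := by
            rw [le_div_iff₀ hqp]; nlinarith [sq_nonneg (q - 1)]
          linarith [hr2 x]
      show Real.log (g x) - Real.log (g x) * r x ≤ B * (q - 1)
      rw [h2]
      calc Real.log (g x) * (1 - r x) ≤ |Real.log (g x) * (1 - r x)| := le_abs_self _
        _ = |Real.log (g x)| * |1 - r x| := abs_mul _ _
        _ ≤ B * (q - 1) := mul_le_mul (hB x) h3 (abs_nonneg _) hBp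
    simpa using h1
  rw [e1]
  linarith

theorem main_T [IsProbabilityMeasure μ] (hn : 0 < n) (hφ : IsPos 1 φ) (hμ : IsDens μ φ) :
    ∫ x, Real.log (dl φ x) ∂μ ≤ n * Real.log (Real.pi * (n + 1)) - Real.log n.factorial := by
  haveI : Nonempty M := ConnectedSpace.toNonempty
  have hdlc := continuous_dl hφ
  obtain ⟨xm, -, hxm⟩ := isCompact_univ.exists_isMinOn (univ_nonempty (α := M)) hdlc.continuousOn
  obtain ⟨xM, -, hxM⟩ := isCompact_univ.exists_isMaxOn (univ_nonempty (α := M)) hdlc.continuousOn
  have hlc : Continuous fun x => Real.log (dl φ x) := hdlc.log fun x => (dl_pos hφ x).ne'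
  obtain ⟨xB, -, hxB⟩ := isCompact_univ.exists_isMaxOn (univ_nonempty (α := M))
    hlc.abs.continuousOn
  set B := |Real.log (dl φ xB)| with hBdef
  have hB : ∀ x, |Real.log (dl φ x)| ≤ B := fun x => hxB (mem_univ x)
  have hπ := Real.pi_pos
  obtain ⟨C, hC, hberg⟩ := bergman (μ := μ) hφ hμ
  -- for fixed `ε`
  have step : ∀ ε : ℝ, 0 < ε → ε < 1 → ∫ x, Real.log (dl φ x) ∂μ ≤
      n * Real.log (Real.pi * (n + 1)) - Real.log n.factorial - Real.log (1 - ε) := by
    intro ε hε hε1
    obtain ⟨k₀, hk₀⟩ := hberg ε hε hε1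
    set Q : ℝ := C * Real.pi ^ n / (1 - ε) with hQ
    have hε2 : 0 < 1 - ε := by linarith
    have hQp : 0 < Q := by positivity
    have hlim : Tendsto (fun k : ℕ => Real.log (Q ^ (1 / ((k : ℝ) + 1)))
        + B * (Q ^ (1 / ((k : ℝ) + 1)) - 1)
        + (n * Real.log (Real.pi * (n + 1) * (((k : ℝ) + 2) / k)) - Real.log n.factorial
          - Real.log (1 - ε))) atTop
        (𝓝 (Real.log 1 + B * (1 - 1) + (n * Real.log (Real.pi * (n + 1) * 1)
          - Real.log n.factorial - Real.log (1 - ε)))) := by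
      have h1 : Tendsto (fun k : ℕ => Q ^ (1 / ((k : ℝ) + 1))) atTop (𝓝 1) := by
        have h2 : Tendsto (fun k : ℕ => 1 / ((k : ℝ) + 1)) atTop (𝓝 0) :=
          tendsto_one_div_add_atTop_nhds_zero_nat
        have h3 := (Real.continuous_const_rpow hQp.ne').tendsto (0 : ℝ)
        rw [Real.rpow_zero] at h3
        exact h3.comp h2
      have h4 : Tendsto (fun k : ℕ => ((k : ℝ) + 2) / k) atTop (𝓝 1) := by
        have h5 : Tendsto (fun k : ℕ => 1 + 2 / (k : ℝ)) atTop (𝓝 (1 + 0)) :=
          tendsto_const_nhds.add (tendsto_const_div_atTop_nhds_zero_nat 2)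
        rw [add_zero] at h5
        refine h5.congr' ?_
        filter_upwards [eventually_gt_atTop 0] with k hk
        have : (k : ℝ) ≠ 0 := by positivity
        field_simp
      refine Tendsto.add (Tendsto.add ?_ ((h1.sub_const 1).const_mul B)) ?_
      · exact (Real.continuousAt_log one_ne_zero).tendsto.comp h1
      · refine Tendsto.sub_const (Tendsto.sub_const (Tendsto.const_mul _ ?_) _) _
        refine (Real.continuousAt_log (by positivity)).tendsto.comp ?_
        exact h4.const_mul _
    have hval : Real.log 1 + B * (1 - 1) + (n * Real.log (Real.pi * (n + 1) * 1)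
          - Real.log n.factorial - Real.log (1 - ε))
        = n * Real.log (Real.pi * (n + 1)) - Real.log n.factorial - Real.log (1 - ε) := by
      rw [Real.log_one]; ring_nf
    rw [hval] at hlim
    refine ge_of_tendsto hlim ?_
    filter_upwards [eventually_ge_atTop k₀, eventually_gt_atTop 0] with k hk hk0
    obtain ⟨N, s, hN, hs, horth, hlo, hup⟩ := hk₀ k hk
    have hkp : (0 : ℝ) < k := by exact_mod_cast hk0
    set m : ℝ := (1 - ε) * (k / Real.pi) ^ n with hm
    have hmp : 0 < m := by positivity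
    set θ : ℝ := 1 / ((k : ℝ) + 1) with hθ
    have hθp : 0 < θ := by positivity
    have hθk : θ * k < 1 := by
      rw [hθ, one_div, inv_mul_lt_iff₀ (by positivity)]; linarith
    have h1 := level hn hφ hμ hN hs horth hmp hlo hup hθp hθk
    have h2 := replace_density (μ := μ) (g := dl φ) (ρ := fun x => ∑ j, nrm k φ (s j) x)
      hdlc.measurable (Finset.measurable_sum _ fun j _ =>
        (continuous_nrm hφ.toIsWeight (hs j).toIsSec).measurable) (dl_pos hφ xm)
      (fun x => hxm (mem_univ x)) (fun x => hxM (mem_univ x)) hmp hlo hup hθp hB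
    have h3 : C * (k : ℝ) ^ n / m = Q := by
      rw [hm, hQ, div_pow]
      field_simp
    have h4 : Real.log ((n + 1) * (1 / θ + 1)) * n - Real.log m
        = n * Real.log (Real.pi * (n + 1) * (((k : ℝ) + 2) / k)) - Real.log (1 - ε) := by
      have h5 : (1 : ℝ) / θ = k + 1 := by rw [hθ, one_div_one_div]
      rw [h5, hm, Real.log_mul hε2.ne' (by positivity), Real.log_pow,
        Real.log_mul (by positivity) (by positivity), Real.log_mul (by positivity) (by positivity),
        Real.log_div (by positivity) (by positivity), Real.log_div (by positivity) (by positivity),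
        Real.log_mul (by positivity) (by positivity)]
      have : (k : ℝ) + 1 + 1 = k + 2 := by ring
      rw [this]; ring
    rw [h3] at h2
    linarith
  -- `ε → 0`
  have hlim : Tendsto (fun i : ℕ => n * Real.log (Real.pi * (n + 1)) - Real.log n.factorial
      - Real.log (1 - 1 / ((i : ℝ) + 2))) atTop
      (𝓝 (n * Real.log (Real.pi * (n + 1)) - Real.log n.factorial - Real.log (1 - 0))) := by
    refine Tendsto.const_sub _ ((Real.continuousAt_log (by norm_num)).tendsto.comp ?_)
    refine Tendsto.const_sub _ ?_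
    have h1 : Tendsto (fun i : ℕ => 1 / ((i : ℝ) + 1)) atTop (𝓝 0) :=
      tendsto_one_div_add_atTop_nhds_zero_nat
    have h2 := h1.comp (tendsto_add_atTop_nat 1)
    refine h2.congr fun i => ?_
    simp only [Function.comp]
    push_cast
    ring_nf
  rw [sub_zero, Real.log_one, sub_zero] at hlim
  refine ge_of_tendsto hlim (Eventually.of_forall fun i => ?_)
  have hi : (0 : ℝ) < (i : ℝ) + 2 := by positivity
  refine step _ (by positivity) ?_
  rw [div_lt_one hi]
  have : (0 : ℝ) ≤ i := Nat.cast_nonneg i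
  linarith

end Pool.Agent.helper63.NU
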